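import Mathlib

/-!
A determinant over a commutative ring which is nilpotent with an explicit exponent.
-/

namespace Pool.Agent.Q29.SR

theorem sum_pow_eq_zero {E : Type*} [CommRing E] {ι : Type*} [DecidableEq ι] (T : Finset ι)
    (z : ι → E) (hz : ∀ t ∈ T, z t * z t = 0) : (∑ t ∈ T, z t) ^ (T.card + 1) = 0 := by
  induction T using Finset.induction with
  | empty => simp
  | insert a T ha ih =>
    rw [Finset.sum_insert ha, Finset.card_insert_of_notMem ha]
    apply (Commute.all (z a) _).add_pow_eq_zero_of_add_le_succ_of_pow_eq_zero (m := 2)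
      (n := T.card + 1)
    · rw [pow_two]; exact hz a (Finset.mem_insert_self a T)
    · exact ih (fun t ht => hz t (Finset.mem_insert_of_mem ht))
    · omega

theorem det_small {E : Type*} [CommRing E] {r : ℕ} (U : Fin (r + 1) → Fin r → E)
    (V : Fin r → Fin (r + 1) → E) :
    (Matrix.of fun i j => ∑ k, U i k * V k j).det = 0 := by
  have h : (Matrix.of fun i j => ∑ k, U i k * V k j) =
      (Matrix.of fun i (k : Fin (r + 1)) => Fin.snoc (α := fun _ => E) (U i) 0 k) *
      (Matrix.of fun (k : Fin (r + 1)) j => Fin.snoc (α := fun _ => E) (fun k => V k j) 0 k) := by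
    ext i j
    rw [Matrix.mul_apply, Fin.sum_univ_castSucc]
    simp
  rw [h, Matrix.det_mul, Matrix.det_eq_zero_of_column_eq_zero (Fin.last r), zero_mul]
  intro i
  simp

theorem det_nilp {E : Type*} [CommRing E] {r s : ℕ} (M : Matrix (Fin (r + 1)) (Fin (r + 1)) E)
    (U : Fin (r + 1) → Fin r → E) (V : Fin r → Fin (r + 1) → E)
    (N : Fin (r + 1) → Fin (r + 1) → Fin s → E)
    (hM : ∀ i j, M i j = ∑ k, U i k * V k j + ∑ l, N i j l)
    (hN : ∀ i j l, N i j l * N i j l = 0) :
    M.det ^ ((r + 1) * (r + 1) * s + 1) = 0 := by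
  classical
  set n : Fin (r + 1) × Fin (r + 1) × Fin s → E := fun t => N t.1 t.2.1 t.2.2 with hn
  set I : Ideal E := Ideal.span (Set.range n) with hI
  have hmem : M.det ∈ I := by
    rw [← Ideal.Quotient.eq_zero_iff_mem]
    have h1 : (Ideal.Quotient.mk I) M.det = ((Ideal.Quotient.mk I).mapMatrix M).det :=
      RingHom.map_det _ _
    rw [h1]
    have h2 : (Ideal.Quotient.mk I).mapMatrix M = Matrix.of fun i j =>
        ∑ k, (Ideal.Quotient.mk I (U i k)) * (Ideal.Quotient.mk I (V k j)) := by
      ext i j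
      rw [RingHom.mapMatrix_apply, Matrix.map_apply, hM, map_add, map_sum, map_sum]
      have h3 : ∑ l, (Ideal.Quotient.mk I) (N i j l) = 0 := by
        apply Finset.sum_eq_zero
        intro l _
        rw [Ideal.Quotient.eq_zero_iff_mem]
        exact Ideal.subset_span ⟨(i, j, l), rfl⟩
      rw [h3, add_zero]
      simp only [map_mul, Matrix.of_apply]
    rw [h2, det_small]
  obtain ⟨c, hc⟩ := Ideal.mem_span_range_iff_exists_fun.mp hmem
  rw [← hc]
  have h5 := sum_pow_eq_zero (Finset.univ : Finset (Fin (r + 1) × Fin (r + 1) × Fin s))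
    (fun t => c t * n t) (by
      intro t _
      have := hN t.1 t.2.1 t.2.2
      change c t * N t.1 t.2.1 t.2.2 * (c t * N t.1 t.2.1 t.2.2) = 0
      calc c t * N t.1 t.2.1 t.2.2 * (c t * N t.1 t.2.1 t.2.2)
          = c t * c t * (N t.1 t.2.1 t.2.2 * N t.1 t.2.1 t.2.2) := by ring
        _ = 0 := by rw [this, mul_zero])
  have h6 : (Finset.univ : Finset (Fin (r + 1) × Fin (r + 1) × Fin s)).card =
      (r + 1) * (r + 1) * s := by
    simp [Fintype.card_prod, mul_assoc]
  rw [h6] at h5
  exact h5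

end Pool.Agent.Q29.SR
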