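import Pool.Agent.Q29.SR.Gras
import Pool.Agent.Q29.SR.Det

/-!
The vanishing of determinant polynomials on Grassmann envelopes of finitely generated
superalgebras in the variety of Lie algebras with `L³L³ = 0`.
-/

open TensorProduct

namespace Pool.Agent.Q29.SR

noncomputable section

universe u

variable {F : Type u} [Field F]

/-- Lie algebras with `L³L³ = 0` (abelian-by-(nilpotent of class 2)). -/
def lieAN (F : Type u) [Field F] : Set (NAPoly F) :=
  {X F 0 * X F 1 + X F 1 * X F 0, jac (X F 0) (X F 1) (X F 2),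
   (X F 0 * X F 1 * X F 2) * (X F 3 * X F 4 * X F 5)}

section ids

variable {B : Type u} [NonUnitalNonAssocRing B] [Module F B] [SMulCommClass F B B]
  [IsScalarTower F B B]

theorem lift_X (v : ℕ → B) (n : ℕ) : FreeNonUnitalNonAssocAlgebra.lift F v (X F n) = v n :=
  FreeNonUnitalNonAssocAlgebra.lift_of_apply F v n

theorem lift_jac (v : ℕ → B) (p q r : NAPoly F) :
    FreeNonUnitalNonAssocAlgebra.lift F v (jac p q r) =
      jac (FreeNonUnitalNonAssocAlgebra.lift F v p) (FreeNonUnitalNonAssocAlgebra.lift F v q)
        (FreeNonUnitalNonAssocAlgebra.lift F v r) := by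
  simp only [jac, map_add, map_mul]

theorem inVariety_lieAN_iff : InVariety B (lieAN F) ↔
    (∀ x y : B, x * y + y * x = 0) ∧ (∀ x y z : B, jac x y z = 0) ∧
      ∀ a b c d e f : B, (a * b * c) * (d * e * f) = 0 := by
  constructor
  · intro h
    refine ⟨fun x y => ?_, fun x y z => ?_, fun a b c d e f => ?_⟩
    · have := h _ (Or.inl rfl) (fun n => [x, y].getD n 0)
      simp only [map_add, map_mul, lift_X] at this
      exact this
    · have := h _ (Or.inr (Or.inl rfl)) (fun n => [x, y, z].getD n 0)
      simp only [lift_jac, lift_X] at this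
      exact this
    · have := h _ (Or.inr (Or.inr rfl)) (fun n => [a, b, c, d, e, f].getD n 0)
      simp only [map_mul, lift_X] at this
      exact this
  · rintro ⟨h1, h2, h3⟩ p (rfl | rfl | rfl) v
    · simpa only [map_add, map_mul, lift_X] using h1 _ _
    · simpa only [lift_jac, lift_X] using h2 _ _ _
    · simpa only [map_mul, lift_X] using h3 _ _ _ _ _ _

end ids

/-- The operator `m ↦ ∑_σ sgn(σ) m·[x_{σ i}, y_i]·…` (a determinant of right
multiplications by products). -/
def opD {B : Type u} [NonUnitalNonAssocRing B] {K : ℕ} (x y : Fin K → B) (m : B) : B :=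
  ∑ σ : Equiv.Perm (Fin K), ((Equiv.Perm.sign σ : ℤˣ) : ℤ) •
    (List.finRange K).foldr (fun i m => m * (x (σ i) * y i)) m

/-- `(x₀x₁·x₂) · det([x_i, y_j])^k` with `x_i`, `y_j` further variables (`i, j < K`). -/
def detPoly (F : Type u) [Field F] (K k : ℕ) : NAPoly F :=
  (opD (fun i : Fin K => X F (3 + 2 * i)) (fun i : Fin K => X F (4 + 2 * i)))^[k]
    (X F 0 * X F 1 * X F 2)

theorem map_opD {B C : Type u} [NonUnitalNonAssocRing B] [Module F B] [NonUnitalNonAssocRing C]
    [Module F C] (φ : B →ₙₐ[F] C) {K : ℕ} (x y : Fin K → B) (m : B) :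
    φ (opD x y m) = opD (fun i => φ (x i)) (fun i => φ (y i)) (φ m) := by
  have key : ∀ (σ : Equiv.Perm (Fin K)) (l : List (Fin K)),
      φ (l.foldr (fun i m => m * (x (σ i) * y i)) m) =
        l.foldr (fun i m => m * (φ (x (σ i)) * φ (y i))) (φ m) := by
    intro σ l
    induction l with
    | nil => rfl
    | cons i l ih => rw [List.foldr_cons, List.foldr_cons, map_mul, map_mul, ih]
  unfold opD
  rw [map_sum]
  refine Finset.sum_congr rfl (fun σ _ => ?_)
  rw [map_zsmul, key]

theorem lift_detPoly {B : Type u} [NonUnitalNonAssocRing B] [Module F B] [SMulCommClass F B B]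
    [IsScalarTower F B B] (v : ℕ → B) (K k : ℕ) :
    FreeNonUnitalNonAssocAlgebra.lift F v (detPoly F K k) =
      (opD (fun i : Fin K => v (3 + 2 * i)) (fun i : Fin K => v (4 + 2 * i)))^[k]
        (v 0 * v 1 * v 2) := by
  unfold detPoly
  induction k with
  | zero => simp only [Function.iterate_zero, id_eq, map_mul, lift_X]
  | succ k ih =>
    rw [Function.iterate_succ', Function.iterate_succ', Function.comp_apply, Function.comp_apply,
      map_opD, ih]
    simp only [lift_X]

section tens

variable {A : Type u} [NonUnitalNonAssocRing A] [Module F A] [SMulCommClass F A A]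
  [IsScalarTower F A A]

variable (F A) in
/-- `Gr ⊗ A³`. -/
def P3 : Submodule F (Gr F ⊗[F] A) :=
  Submodule.span F {t | ∃ (g : Gr F) (a b c : A), t = g ⊗ₜ[F] (a * b * c)}

theorem mul_mul_mem_P3 (x y z : Gr F ⊗[F] A) : x * y * z ∈ P3 F A := by
  induction x using TensorProduct.induction_on with
  | zero => rw [zero_mul, zero_mul]; exact Submodule.zero_mem _
  | add x x' hx hx' => rw [add_mul, add_mul]; exact Submodule.add_mem _ hx hx'
  | tmul g a =>
    induction y using TensorProduct.induction_on with
    | zero => rw [mul_zero, zero_mul]; exact Submodule.zero_mem _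
    | add y y' hy hy' => rw [mul_add, add_mul]; exact Submodule.add_mem _ hy hy'
    | tmul g' a' =>
      induction z using TensorProduct.induction_on with
      | zero => rw [mul_zero]; exact Submodule.zero_mem _
      | add z z' hz hz' => rw [mul_add]; exact Submodule.add_mem _ hz hz'
      | tmul g'' a'' =>
        rw [Algebra.TensorProduct.tmul_mul_tmul, Algebra.TensorProduct.tmul_mul_tmul]
        exact Submodule.subset_span ⟨_, _, _, _, rfl⟩

theorem P3_mul {p : Gr F ⊗[F] A} (hp : p ∈ P3 F A) (t : Gr F ⊗[F] A) : p * t ∈ P3 F A := by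
  unfold P3 at hp
  induction hp using Submodule.span_induction with
  | zero => rw [zero_mul]; exact Submodule.zero_mem _
  | add x x' _ _ hx hx' => rw [add_mul]; exact Submodule.add_mem _ hx hx'
  | smul c x _ hx => rw [smul_mul_assoc]; exact Submodule.smul_mem _ c hx
  | mem x hx =>
    obtain ⟨g, a, b, c, rfl⟩ := hx
    have h : g ⊗ₜ[F] (a * b * c) = (g ⊗ₜ[F] (a * b)) * ((1 : Gr F) ⊗ₜ[F] c) := by
      rw [Algebra.TensorProduct.tmul_mul_tmul, mul_one]
    rw [h]
    exact mul_mul_mem_P3 _ _ _

theorem P3_mul_P3 (hA : ∀ a b c d e f : A, (a * b * c) * (d * e * f) = 0)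
    {p q : Gr F ⊗[F] A} (hp : p ∈ P3 F A) (hq : q ∈ P3 F A) : p * q = 0 := by
  unfold P3 at hp hq
  induction hp using Submodule.span_induction with
  | zero => rw [zero_mul]
  | add x x' _ _ hx hx' => rw [add_mul, hx, hx', add_zero]
  | smul c x _ hx => rw [smul_mul_assoc, hx, smul_zero]
  | mem x hx =>
    obtain ⟨g, a, b, c, rfl⟩ := hx
    induction hq using Submodule.span_induction with
    | zero => rw [mul_zero]
    | add y y' _ _ hy hy' => rw [mul_add, hy, hy', add_zero]
    | smul c y _ hy => rw [mul_smul_comm, hy, smul_zero]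
    | mem y hy =>
      obtain ⟨g', d, e, f, rfl⟩ := hy
      rw [Algebra.TensorProduct.tmul_mul_tmul, hA, TensorProduct.tmul_zero]

theorem even_smul_mul (α : Gr F) (x y : Gr F ⊗[F] A) : (α • x) * y = α • (x * y) :=
  smul_mul_assoc α x y

theorem even_mul_smul {α : Gr F} (hα : α ∈ GrPart F 0) (x y : Gr F ⊗[F] A) :
    x * (α • y) = α • (x * y) := by
  induction x using TensorProduct.induction_on with
  | zero => rw [zero_mul, zero_mul, smul_zero]
  | add x x' hx hx' => rw [add_mul, add_mul, smul_add, hx, hx']
  | tmul g a =>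
    induction y using TensorProduct.induction_on with
    | zero => rw [smul_zero, mul_zero, smul_zero]
    | add y y' hy hy' => rw [smul_add, mul_add, mul_add, smul_add, hy, hy']
    | tmul g' a' =>
      rw [TensorProduct.smul_tmul', Algebra.TensorProduct.tmul_mul_tmul,
        Algebra.TensorProduct.tmul_mul_tmul, TensorProduct.smul_tmul', smul_eq_mul, smul_eq_mul,
        ← mul_assoc, ← mul_assoc, even_comm hα g]

theorem odd_sq [CharZero F] {β : Gr F} (hβ : β ∈ GrPart F 1) (b : A) (m y y' : Gr F ⊗[F] A) :
    (m * ((β ⊗ₜ[F] b) * y)) * ((β ⊗ₜ[F] b) * y') = 0 := by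
  induction m using TensorProduct.induction_on with
  | zero => rw [zero_mul, zero_mul]
  | add x x' hx hx' => rw [add_mul, add_mul, hx, hx', add_zero]
  | tmul g a =>
    induction y using TensorProduct.induction_on with
    | zero => rw [mul_zero, mul_zero, zero_mul]
    | add y y' hy hy' => rw [mul_add, mul_add, add_mul, hy, hy', add_zero]
    | tmul g' a' =>
      induction y' using TensorProduct.induction_on with
      | zero => rw [mul_zero, mul_zero]
      | add y y' hy hy' => rw [mul_add, mul_add, hy, hy', add_zero]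
      | tmul g'' a'' =>
        simp only [Algebra.TensorProduct.tmul_mul_tmul]
        have : g * (β * g') * (β * g'') = 0 := by
          calc g * (β * g') * (β * g'') = g * (β * g' * β) * g'' := by simp only [mul_assoc]
            _ = 0 := by rw [odd_mul_mul_odd hβ, mul_zero, zero_mul]
        rw [this, TensorProduct.zero_tmul]

omit [SMulCommClass F A A] [IsScalarTower F A A] in
theorem tmul_eq_zero' {g : Gr F} (hg : g ≠ 0) {a : A} (h : g ⊗ₜ[F] a = 0) : a = 0 := by
  obtain ⟨φ, hφ⟩ : ∃ φ : Module.Dual F (Gr F), φ g ≠ 0 := by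
    by_contra hcon
    push Not at hcon
    exact hg ((Module.forall_dual_apply_eq_zero_iff F g).mp hcon)
  have h1 := congrArg (fun t => TensorProduct.lid F A (TensorProduct.map φ LinearMap.id t)) h
  simp only [TensorProduct.map_tmul, TensorProduct.lid_tmul, map_zero, LinearMap.id_apply] at h1
  exact (smul_eq_zero.mp h1).resolve_left hφ

end tens

end

end Pool.Agent.Q29.SR
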