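import Mathlib

/-!
Varieties of nonassociative algebras, superalgebras, Grassmann envelopes
(definitions for the problems on basic superranks).
-/

open TensorProduct

namespace Pool.Agent.Q29.SR

noncomputable section

universe u

/-- Nonassociative polynomials over `F` in the variables `x₀, x₁, …`
(elements of the free nonassociative algebra without unit). -/
abbrev NAPoly (F : Type u) [Field F] : Type u := FreeNonUnitalNonAssocAlgebra F ℕ

/-- The variable `xₙ`. -/
abbrev X (F : Type u) [Field F] (n : ℕ) : NAPoly F := FreeNonUnitalNonAssocAlgebra.of F n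

/-- A (not necessarily associative, not necessarily unital) algebra over `F`. -/
structure Alg (F : Type u) [Field F] where
  carrier : Type u
  [ring : NonUnitalNonAssocRing carrier]
  [module : Module F carrier]
  [comm : SMulCommClass F carrier carrier]
  [tower : IsScalarTower F carrier carrier]

attribute [instance] Alg.ring Alg.module Alg.comm Alg.tower

variable {F : Type u} [Field F]

/-- `f` is an identity of the algebra `B`. -/
def Alg.Satisfies (B : Alg F) (f : NAPoly F) : Prop :=
  ∀ v : ℕ → B.carrier, FreeNonUnitalNonAssocAlgebra.lift F v f = 0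

/-- The algebra `B` belongs to the variety defined by the set `S` of identities. -/
def Alg.IsIn (B : Alg F) (S : Set (NAPoly F)) : Prop := ∀ f ∈ S, B.Satisfies f

/-- The variety defined by the set `S` of identities is `var(C)`, the variety generated by the
algebra `C`, i.e. the class of all algebras satisfying every identity of `C`. -/
def IsVarOf (S : Set (NAPoly F)) (C : Alg F) : Prop :=
  ∀ B : Alg F, B.IsIn S ↔ ∀ f : NAPoly F, C.Satisfies f → B.Satisfies f

/-- The variety defined by `S` is contained in the variety defined by `S'`. -/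
def IsSubvariety (S S' : Set (NAPoly F)) : Prop := ∀ B : Alg F, B.IsIn S → B.IsIn S'

/-- The Jacobian `J(x,y,z) = xy·z + yz·x + zx·y`. -/
def jac {B : Type u} [NonUnitalNonAssocRing B] (x y z : B) : B :=
  x * y * z + y * z * x + z * x * y

variable (F) in
/-- The defining identities of the variety `Malc` of Malcev algebras:
`x ∘ y = xy + yx = 0` and `J(x,y,z)x = J(x,y,xz)`. -/
def malc : Set (NAPoly F) :=
  {X F 0 * X F 1 + X F 1 * X F 0,
   jac (X F 0) (X F 1) (X F 2) * X F 0 - jac (X F 0) (X F 1) (X F 0 * X F 2)}

variable (F) in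
/-- The polynomials `s₀ = x₁`, `s₁ = x₁x₂`, `s₂ = x₁x₂·x₃x₄`, …:  `solvPoly F n a` is `sₙ` in the
`2ⁿ` variables `x_a, x_{a+1}, …`. -/
def solvPoly : ℕ → ℕ → NAPoly F
  | 0, a => X F a
  | n + 1, a => solvPoly n a * solvPoly n (a + 2 ^ n)

/-- The variety defined by `S` is solvable of index `n`: all its algebras satisfy `sₙ = 0`. -/
def IsSolvableOfIndex (S : Set (NAPoly F)) (n : ℕ) : Prop := IsSubvariety S {solvPoly F n 0}

variable (F) in
/-- A superalgebra `A = A₀ ⊕ A₁` over `F` (with `AᵢAⱼ ⊆ A_{i+j}`). -/
structure SuperAlg extends Alg F where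
  part : ZMod 2 → Submodule F carrier
  isCompl : IsCompl (part 0) (part 1)
  mul_mem : ∀ {i j : ZMod 2} {a b : carrier}, a ∈ part i → b ∈ part j → a * b ∈ part (i + j)

variable (F) in
/-- The Grassmann algebra (with unit) on countably many anticommuting generators. -/
def Grass : Type u := ExteriorAlgebra F (ℕ →₀ F)

instance : Ring (Grass F) := CliffordAlgebra.instRing (0 : QuadraticForm F (ℕ →₀ F))

instance : Algebra F (Grass F) := CliffordAlgebra.instAlgebra (0 : QuadraticForm F (ℕ →₀ F))

variable (F) in
/-- The even part (`i = 0`) and the odd part (`i = 1`) of the Grassmann algebra: the spans of the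
products of an even, respectively odd, number of generators. -/
def GrassPart (i : ZMod 2) : Submodule F (Grass F) :=
  CliffordAlgebra.evenOdd (0 : QuadraticForm F (ℕ →₀ F)) i

/-- The algebra `Grass ⊗ A`. -/
def GTensor (A : Alg F) : Type u := ExteriorAlgebra F (ℕ →₀ F) ⊗[F] A.carrier

instance (A : Alg F) : NonUnitalNonAssocRing (GTensor A) :=
  Algebra.TensorProduct.instNonUnitalNonAssocRing (R := F)
    (A := ExteriorAlgebra F (ℕ →₀ F)) (B := A.carrier)

instance (A : Alg F) : Module F (GTensor A) :=
  TensorProduct.instModule (R := F) (M := ExteriorAlgebra F (ℕ →₀ F)) (N := A.carrier)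

instance (A : Alg F) : SMulCommClass F (GTensor A) (GTensor A) :=
  Algebra.TensorProduct.sMulCommClass_right (S := F) (R := F)
    (A := ExteriorAlgebra F (ℕ →₀ F)) (B := A.carrier)

instance (A : Alg F) : IsScalarTower F (GTensor A) (GTensor A) :=
  Algebra.TensorProduct.isScalarTower_right (S := F) (R := F)
    (A := ExteriorAlgebra F (ℕ →₀ F)) (B := A.carrier)

/-- The element `g ⊗ a`. -/
def pureTensor {A : Alg F} (g : Grass F) (a : A.carrier) : GTensor A :=
  TensorProduct.tmul F (M := ExteriorAlgebra F (ℕ →₀ F)) g a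

/-- The subspace `Grass₀ ⊗ A₀ + Grass₁ ⊗ A₁` of `Grass ⊗ A`. -/
def SuperAlg.envSpace (A : SuperAlg F) : Submodule F (GTensor A.toAlg) :=
  Submodule.span F {t | ∃ i g a, g ∈ GrassPart F i ∧ a ∈ A.part i ∧ t = pureTensor g a}

theorem pureTensor_mul {A : Alg F} (g g' : Grass F) (a a' : A.carrier) :
    pureTensor g a * pureTensor g' a' = pureTensor (g * g') (a * a') :=
  Algebra.TensorProduct.tmul_mul_tmul (R := F) (A := ExteriorAlgebra F (ℕ →₀ F)) g g' a a'

theorem SuperAlg.envSpace_mul (A : SuperAlg F) (x y : GTensor A.toAlg) (hx : x ∈ A.envSpace)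
    (hy : y ∈ A.envSpace) : x * y ∈ A.envSpace := by
  change x ∈ Submodule.span F _ at hx
  change y ∈ Submodule.span F _ at hy
  change x * y ∈ Submodule.span F _
  induction hx using Submodule.span_induction with
  | zero => rw [zero_mul]; exact Submodule.zero_mem _
  | add x x' _ _ hx hx' => rw [add_mul]; exact Submodule.add_mem _ hx hx'
  | smul c x _ hx => rw [smul_mul_assoc]; exact Submodule.smul_mem _ c hx
  | mem x hx =>
    obtain ⟨i, g, a, hg, ha, rfl⟩ := hx
    induction hy using Submodule.span_induction with
    | zero => rw [mul_zero]; exact Submodule.zero_mem _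
    | add y y' _ _ hy hy' => rw [mul_add]; exact Submodule.add_mem _ hy hy'
    | smul c y _ hy => rw [mul_smul_comm]; exact Submodule.smul_mem _ c hy
    | mem y hy =>
      obtain ⟨j, g', a', hg', ha', rfl⟩ := hy
      rw [pureTensor_mul]
      exact Submodule.subset_span ⟨i + j, g * g', a * a',
        SetLike.mul_mem_graded (A := CliffordAlgebra.evenOdd (0 : QuadraticForm F (ℕ →₀ F)))
          hg hg', A.mul_mem ha ha', rfl⟩

/-- The Grassmann envelope as a subalgebra of `Grass ⊗ A`. -/
def SuperAlg.env (A : SuperAlg F) : NonUnitalSubalgebra F (GTensor A.toAlg) :=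
  A.envSpace.toNonUnitalSubalgebra A.envSpace_mul

/-- The Grassmann envelope as a type. -/
def SuperAlg.EnvType (A : SuperAlg F) : Type u := A.env

instance (A : SuperAlg F) : NonUnitalNonAssocRing A.EnvType :=
  NonUnitalSubalgebra.toNonUnitalNonAssocRing A.env

instance (A : SuperAlg F) : Module F A.EnvType := NonUnitalSubalgebra.instModule (S := A.env)

instance (A : SuperAlg F) : SMulCommClass F A.EnvType A.EnvType :=
  NonUnitalSubalgebra.instSMulCommClass (S := A.env)

instance (A : SuperAlg F) : IsScalarTower F A.EnvType A.EnvType :=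
  ⟨fun c x y => Subtype.ext (smul_mul_assoc c (x : A.env).1 (y : A.env).1)⟩

/-- The Grassmann envelope `Grass₀ ⊗ A₀ + Grass₁ ⊗ A₁` of the superalgebra `A`. -/
def SuperAlg.envelope (A : SuperAlg F) : Alg F := ⟨A.EnvType⟩

/-- The superalgebra `A` is finitely generated (as an algebra). -/
def SuperAlg.IsFG (A : SuperAlg F) : Prop :=
  ∃ s : Finset A.carrier, NonUnitalAlgebra.adjoin F (s : Set A.carrier) = ⊤

/-- The superalgebra `A` is generated by `r` even and `s` odd elements. -/
def SuperAlg.GeneratedBy (A : SuperAlg F) (r s : ℕ) : Prop :=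
  ∃ (a : Fin r → A.carrier) (b : Fin s → A.carrier), (∀ i, a i ∈ A.part 0) ∧
    (∀ j, b j ∈ A.part 1) ∧ NonUnitalAlgebra.adjoin F (Set.range a ∪ Set.range b) = ⊤

/-- The variety defined by `S` has finite basic superrank: it is generated by the Grassmann
envelope of some finitely generated superalgebra. -/
def HasFiniteBasicSuperrank (S : Set (NAPoly F)) : Prop :=
  ∃ A : SuperAlg F, A.IsFG ∧ IsVarOf S A.envelope

/-- There is a polynomial `f` which is not an identity of the variety `𝒱` defined by `S` but is an
identity of the Grassmann envelope of every `𝒱`-superalgebra generated by `r` even and `s` odd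
elements. -/
def NotReachedBy (S : Set (NAPoly F)) (r s : ℕ) : Prop :=
  ∃ f : NAPoly F, ¬ IsSubvariety S {f} ∧
    ∀ A : SuperAlg F, A.envelope.IsIn S → A.GeneratedBy r s → A.envelope.Satisfies f

end

end Pool.Agent.Q29.SR
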