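import Pool.Agent.Q29.SR.Core

/-!
Determinant polynomials vanish on Grassmann envelopes.
-/

open TensorProduct

namespace Pool.Agent.Q29.SR

noncomputable section

universe u

variable {F : Type u} [Field F]
variable {A : Type u} [NonUnitalNonAssocRing A] [Module F A] [SMulCommClass F A A]
  [IsScalarTower F A A]
variable {𝒜 : ZMod 2 → Submodule F A}

theorem zmod2_cases (i : ZMod 2) : i = 0 ∨ i = 1 := by
  fin_cases i
  · exact Or.inl rfl
  · exact Or.inr rfl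

theorem tmul_mem_envelope (h : IsSuperalgebra 𝒜) {i : ZMod 2} {g : Gr F} (hg : g ∈ GrPart F i)
    {a : A} (ha : a ∈ 𝒜 i) : g ⊗ₜ[F] a ∈ envelope 𝒜 h :=
  Submodule.subset_span ⟨i, g, a, hg, ha, rfl⟩

omit [SMulCommClass F A A] [IsScalarTower F A A] in
theorem hom_decomp (h : IsSuperalgebra 𝒜) (a : A) : ∃ a0 ∈ 𝒜 0, ∃ a1 ∈ 𝒜 1, a0 + a1 = a :=
  Submodule.mem_sup.mp (by rw [h.isCompl.sup_eq_top]; trivial)

omit [SMulCommClass F A A] [IsScalarTower F A A] in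
theorem hom_ind (h : IsSuperalgebra 𝒜) (p : A → Prop) (h0 : ∀ i, ∀ a ∈ 𝒜 i, p a)
    (hadd : ∀ a b, p a → p b → p (a + b)) (a : A) : p a := by
  obtain ⟨a0, h00, a1, h11, rfl⟩ := hom_decomp h a
  exact hadd _ _ (h0 0 a0 h00) (h0 1 a1 h11)

/-- If the Grassmann envelope satisfies `L³L³ = 0` then `A³A³ = 0`. -/
theorem A3A3 (h : IsSuperalgebra 𝒜)
    (hL : ∀ a b c d e f : envelope 𝒜 h, (a * b * c) * (d * e * f) = 0) :
    ∀ a b c d e f : A, (a * b * c) * (d * e * f) = 0 := by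
  have hom : ∀ (i1 i2 i3 i4 i5 i6 : ZMod 2), ∀ a1 ∈ 𝒜 i1, ∀ a2 ∈ 𝒜 i2, ∀ a3 ∈ 𝒜 i3,
      ∀ a4 ∈ 𝒜 i4, ∀ a5 ∈ 𝒜 i5, ∀ a6 ∈ 𝒜 i6, (a1 * a2 * a3) * (a4 * a5 * a6) = 0 := by
    intro i1 i2 i3 i4 i5 i6 a1 h1 a2 h2 a3 h3 a4 h4 a5 h5 a6 h6
    obtain ⟨g, hg, hne⟩ := exists_prod_ne_zero (F := F) 6 ![i1, i2, i3, i4, i5, i6]
    have e1 := tmul_mem_envelope h (hg 0) h1
    have e2 := tmul_mem_envelope h (hg 1) h2
    have e3 := tmul_mem_envelope h (hg 2) h3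
    have e4 := tmul_mem_envelope h (hg 3) h4
    have e5 := tmul_mem_envelope h (hg 4) h5
    have e6 := tmul_mem_envelope h (hg 5) h6
    have := congrArg Subtype.val (hL ⟨_, e1⟩ ⟨_, e2⟩ ⟨_, e3⟩ ⟨_, e4⟩ ⟨_, e5⟩ ⟨_, e6⟩)
    change (g 0 ⊗ₜ[F] a1 * g 1 ⊗ₜ[F] a2 * g 2 ⊗ₜ[F] a3) *
      (g 3 ⊗ₜ[F] a4 * g 4 ⊗ₜ[F] a5 * g 5 ⊗ₜ[F] a6) = 0 at this
    simp only [Algebra.TensorProduct.tmul_mul_tmul] at this
    refine tmul_eq_zero' ?_ this
    intro h0
    apply hne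
    rw [← h0]
    simp [List.ofFn_succ, mul_assoc]
  intro a1
  refine hom_ind h (fun a1 => ∀ b c d e f : A, (a1 * b * c) * (d * e * f) = 0)
    (fun i1 a1 h1 => ?_) (fun x y hx hy b c d e f => by
      rw [add_mul, add_mul, add_mul, hx, hy, add_zero]) a1
  intro a2
  refine hom_ind h (fun a2 => ∀ c d e f : A, (a1 * a2 * c) * (d * e * f) = 0)
    (fun i2 a2 h2 => ?_) (fun x y hx hy c d e f => by
      rw [mul_add, add_mul, add_mul, hx, hy, add_zero]) a2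
  intro a3
  refine hom_ind h (fun a3 => ∀ d e f : A, (a1 * a2 * a3) * (d * e * f) = 0)
    (fun i3 a3 h3 => ?_) (fun x y hx hy d e f => by
      rw [mul_add, add_mul, hx, hy, add_zero]) a3
  intro a4
  refine hom_ind h (fun a4 => ∀ e f : A, (a1 * a2 * a3) * (a4 * e * f) = 0)
    (fun i4 a4 h4 => ?_) (fun x y hx hy e f => by
      rw [add_mul, add_mul, mul_add, hx, hy, add_zero]) a4
  intro a5
  refine hom_ind h (fun a5 => ∀ f : A, (a1 * a2 * a3) * (a4 * a5 * f) = 0)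
    (fun i5 a5 h5 => ?_) (fun x y hx hy f => by
      rw [mul_add, add_mul, mul_add, hx, hy, add_zero]) a5
  intro a6
  refine hom_ind h (fun a6 => (a1 * a2 * a3) * (a4 * a5 * a6) = 0)
    (fun i6 a6 h6 => ?_) (fun x y hx hy => by
      rw [mul_add, mul_add, hx, hy, add_zero]) a6
  exact hom i1 i2 i3 i4 i5 i6 a1 h1 a2 h2 a3 h3 a4 h4 a5 h5 a6 h6

variable (F A) in
/-- `A²`. -/
def A2 : Submodule F A := Submodule.span F {t | ∃ b c : A, t = b * c}

omit [SMulCommClass F A A] [IsScalarTower F A A] in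
theorem mul_mem_A2 (b c : A) : b * c ∈ A2 F A := Submodule.subset_span ⟨b, c, rfl⟩

section gen

variable {r s : ℕ} {a : Fin r → A} {b : Fin s → A}

theorem A2_le (h : IsSuperalgebra 𝒜) : A2 F A ≤ (A2 F A ⊓ 𝒜 0) ⊔ (A2 F A ⊓ 𝒜 1) := by
  have hhom : ∀ i : ZMod 2, ∀ x : A, x ∈ A2 F A → x ∈ 𝒜 i →
      x ∈ (A2 F A ⊓ 𝒜 0) ⊔ (A2 F A ⊓ 𝒜 1) := by
    intro i x h1 h2
    rcases zmod2_cases i with rfl | rfl
    · exact Submodule.mem_sup_left ⟨h1, h2⟩
    · exact Submodule.mem_sup_right ⟨h1, h2⟩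
  refine Submodule.span_le.mpr ?_
  rintro _ ⟨b, c, rfl⟩
  change b * c ∈ (A2 F A ⊓ 𝒜 0) ⊔ (A2 F A ⊓ 𝒜 1)
  refine hom_ind h (fun b => b * c ∈ (A2 F A ⊓ 𝒜 0) ⊔ (A2 F A ⊓ 𝒜 1)) (fun i b hb => ?_)
    (fun x y hx hy => ?_) b
  · refine hom_ind h (fun c => b * c ∈ (A2 F A ⊓ 𝒜 0) ⊔ (A2 F A ⊓ 𝒜 1)) (fun j c hc => ?_)
      (fun x y hx hy => ?_) c
    · exact hhom (i + j) _ (mul_mem_A2 b c) (h.mul_mem hb hc)
    · rw [mul_add]; exact Submodule.add_mem _ hx hy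
  · rw [add_mul]; exact Submodule.add_mem _ hx hy

theorem gen_top (h : IsSuperalgebra 𝒜)
    (hgen : NonUnitalAlgebra.adjoin F (Set.range a ∪ Set.range b) = ⊤) :
    (Submodule.span F (Set.range a) ⊔ (A2 F A ⊓ 𝒜 0)) ⊔
      (Submodule.span F (Set.range b) ⊔ (A2 F A ⊓ 𝒜 1)) = ⊤ := by
  set Q := (Submodule.span F (Set.range a) ⊔ (A2 F A ⊓ 𝒜 0)) ⊔
      (Submodule.span F (Set.range b) ⊔ (A2 F A ⊓ 𝒜 1)) with hQ
  have hA2Q : A2 F A ≤ Q := by
    refine (A2_le h).trans ?_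
    exact sup_le_sup le_sup_right le_sup_right
  let S : NonUnitalSubalgebra F A :=
    { Q with mul_mem' := fun {x y} _ _ => hA2Q (mul_mem_A2 x y) }
  have hS : NonUnitalAlgebra.adjoin F (Set.range a ∪ Set.range b) ≤ S := by
    apply NonUnitalAlgebra.adjoin_le
    rintro x (hx | hx)
    · exact Submodule.mem_sup_left (Submodule.mem_sup_left (Submodule.subset_span hx))
    · exact Submodule.mem_sup_right (Submodule.mem_sup_left (Submodule.subset_span hx))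
  rw [eq_top_iff]
  intro x _
  have : x ∈ S := hS (by rw [hgen]; trivial)
  exact this

theorem dec0 (h : IsSuperalgebra 𝒜) (ha : ∀ i, a i ∈ 𝒜 0) (hb : ∀ i, b i ∈ 𝒜 1)
    (hgen : NonUnitalAlgebra.adjoin F (Set.range a ∪ Set.range b) = ⊤) {x : A} (hx : x ∈ 𝒜 0) :
    ∃ (c : Fin r → F) (q : A), q ∈ A2 F A ∧ x = ∑ k, c k • a k + q := by
  have hx' : x ∈ (Submodule.span F (Set.range a) ⊔ (A2 F A ⊓ 𝒜 0)) ⊔
      (Submodule.span F (Set.range b) ⊔ (A2 F A ⊓ 𝒜 1)) := by rw [gen_top h hgen]; trivial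
  obtain ⟨y, hy, z, hz, hyz⟩ := Submodule.mem_sup.mp hx'
  have hy0 : y ∈ 𝒜 0 := by
    refine (sup_le ?_ inf_le_right : _ ≤ 𝒜 0) hy
    exact Submodule.span_le.mpr (by rintro _ ⟨i, rfl⟩; exact ha i)
  have hz1 : z ∈ 𝒜 1 := by
    refine (sup_le ?_ inf_le_right : _ ≤ 𝒜 1) hz
    exact Submodule.span_le.mpr (by rintro _ ⟨i, rfl⟩; exact hb i)
  have hz0 : z ∈ 𝒜 0 := by
    have : z = x - y := by rw [← hyz]; abel
    rw [this]; exact Submodule.sub_mem _ hx hy0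
  have hz' : z = 0 := by
    have := h.isCompl.disjoint
    rw [Submodule.disjoint_def] at this
    exact this z hz0 hz1
  obtain ⟨p, hp, q, hq, hpq⟩ := Submodule.mem_sup.mp hy
  obtain ⟨c, hc⟩ := (Submodule.mem_span_range_iff_exists_fun F).mp hp
  exact ⟨c, q, hq.1, by rw [hc, hpq, ← hyz, hz', add_zero]⟩

theorem dec1 (h : IsSuperalgebra 𝒜) (ha : ∀ i, a i ∈ 𝒜 0) (hb : ∀ i, b i ∈ 𝒜 1)
    (hgen : NonUnitalAlgebra.adjoin F (Set.range a ∪ Set.range b) = ⊤) {x : A} (hx : x ∈ 𝒜 1) :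
    ∃ (c : Fin s → F) (q : A), q ∈ A2 F A ∧ x = ∑ k, c k • b k + q := by
  have hx' : x ∈ (Submodule.span F (Set.range a) ⊔ (A2 F A ⊓ 𝒜 0)) ⊔
      (Submodule.span F (Set.range b) ⊔ (A2 F A ⊓ 𝒜 1)) := by rw [gen_top h hgen]; trivial
  obtain ⟨y, hy, z, hz, hyz⟩ := Submodule.mem_sup.mp hx'
  have hy0 : y ∈ 𝒜 0 := by
    refine (sup_le ?_ inf_le_right : _ ≤ 𝒜 0) hy
    exact Submodule.span_le.mpr (by rintro _ ⟨i, rfl⟩; exact ha i)
  have hz1 : z ∈ 𝒜 1 := by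
    refine (sup_le ?_ inf_le_right : _ ≤ 𝒜 1) hz
    exact Submodule.span_le.mpr (by rintro _ ⟨i, rfl⟩; exact hb i)
  have hy1 : y ∈ 𝒜 1 := by
    have : y = x - z := by rw [← hyz]; abel
    rw [this]; exact Submodule.sub_mem _ hx hz1
  have hy' : y = 0 := by
    have := h.isCompl.disjoint
    rw [Submodule.disjoint_def] at this
    exact this y hy0 hy1
  obtain ⟨p, hp, q, hq, hpq⟩ := Submodule.mem_sup.mp hz
  obtain ⟨c, hc⟩ := (Submodule.mem_span_range_iff_exists_fun F).mp hp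
  exact ⟨c, q, hq.1, by rw [hc, hpq, ← hyz, hy', zero_add]⟩

theorem mul_A2_eq_zero (hA : ∀ a b c d e f : A, (a * b * c) * (d * e * f) = 0) (g : Gr F)
    {q : A} (hq : q ∈ A2 F A) (y : Gr F ⊗[F] A) {m : Gr F ⊗[F] A} (hm : m ∈ P3 F A) :
    m * ((g ⊗ₜ[F] q) * y) = 0 := by
  unfold A2 at hq
  induction hq using Submodule.span_induction with
  | zero => rw [TensorProduct.tmul_zero, zero_mul, mul_zero]
  | add x x' _ _ hx hx' => rw [TensorProduct.tmul_add, add_mul, mul_add, hx, hx', add_zero]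
  | smul c x _ hx => rw [TensorProduct.tmul_smul, smul_mul_assoc, mul_smul_comm, hx, smul_zero]
  | mem x hx =>
    obtain ⟨b, c, rfl⟩ := hx
    have h : g ⊗ₜ[F] (b * c) = (g ⊗ₜ[F] b) * ((1 : Gr F) ⊗ₜ[F] c) := by
      rw [Algebra.TensorProduct.tmul_mul_tmul, mul_one]
    rw [h]
    exact P3_mul_P3 hA hm (mul_mul_mem_P3 _ _ _)

/-- The expansion of `m ↦ m·(x·y)` on `Gr ⊗ A³` in terms of the generators. -/
theorem expand (h : IsSuperalgebra 𝒜) (ha : ∀ i, a i ∈ 𝒜 0) (hb : ∀ i, b i ∈ 𝒜 1)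
    (hgen : NonUnitalAlgebra.adjoin F (Set.range a ∪ Set.range b) = ⊤)
    (hA : ∀ a b c d e f : A, (a * b * c) * (d * e * f) = 0)
    {x : Gr F ⊗[F] A} (hx : x ∈ envelope 𝒜 h) :
    ∃ (α : Fin r → Gr F) (β : Fin s → Gr F), (∀ k, α k ∈ GrPart F 0) ∧ (∀ l, β l ∈ GrPart F 1) ∧
      ∀ (y m : Gr F ⊗[F] A), m ∈ P3 F A →
        m * (x * y) = ∑ k, α k • (m * (((1 : Gr F) ⊗ₜ[F] a k) * y)) +
          ∑ l, m * ((β l ⊗ₜ[F] b l) * y) := by
  change x ∈ Submodule.span F _ at hx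
  induction hx using Submodule.span_induction with
  | zero =>
    refine ⟨fun _ => 0, fun _ => 0, fun _ => Submodule.zero_mem _, fun _ => Submodule.zero_mem _,
      fun y m hm => ?_⟩
    simp
  | add x x' _ _ hx hx' =>
    obtain ⟨α, β, hα, hβ, hh⟩ := hx
    obtain ⟨α', β', hα', hβ', hh'⟩ := hx'
    refine ⟨fun k => α k + α' k, fun l => β l + β' l, fun k => Submodule.add_mem _ (hα k) (hα' k),
      fun l => Submodule.add_mem _ (hβ l) (hβ' l), fun y m hm => ?_⟩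
    rw [add_mul, mul_add, hh y m hm, hh' y m hm]
    simp only [add_smul, TensorProduct.add_tmul, add_mul, mul_add, Finset.sum_add_distrib]
    abel
  | smul c x _ hx =>
    obtain ⟨α, β, hα, hβ, hh⟩ := hx
    refine ⟨fun k => c • α k, fun l => c • β l, fun k => Submodule.smul_mem _ c (hα k),
      fun l => Submodule.smul_mem _ c (hβ l), fun y m hm => ?_⟩
    rw [smul_mul_assoc, mul_smul_comm, hh y m hm, smul_add, Finset.smul_sum, Finset.smul_sum]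
    congr 1
    · refine Finset.sum_congr rfl (fun k _ => ?_)
      rw [smul_assoc]
    · refine Finset.sum_congr rfl (fun k _ => ?_)
      change _ = m * (((c • β k) ⊗ₜ[F] b k) * y)
      rw [← TensorProduct.smul_tmul', smul_mul_assoc, mul_smul_comm]
  | mem x hx =>
    obtain ⟨i, g, t, hg, ht, rfl⟩ := hx
    rcases zmod2_cases i with rfl | rfl
    · obtain ⟨c, q, hq, rfl⟩ := dec0 h ha hb hgen ht
      refine ⟨fun k => c k • g, fun _ => 0, fun k => Submodule.smul_mem _ _ hg,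
        fun _ => Submodule.zero_mem _, fun y m hm => ?_⟩
      rw [TensorProduct.tmul_add, add_mul, mul_add, mul_A2_eq_zero hA g hq y hm, add_zero,
        TensorProduct.tmul_sum, Finset.sum_mul, Finset.mul_sum]
      simp only [TensorProduct.zero_tmul, zero_mul, mul_zero, Finset.sum_const_zero, add_zero]
      refine Finset.sum_congr rfl (fun k _ => ?_)
      rw [← even_mul_smul (Submodule.smul_mem _ (c k) hg), ← even_smul_mul,
        TensorProduct.smul_tmul', smul_eq_mul, mul_one, TensorProduct.smul_tmul]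
    · obtain ⟨c, q, hq, rfl⟩ := dec1 h ha hb hgen ht
      refine ⟨fun _ => 0, fun l => c l • g, fun _ => Submodule.zero_mem _,
        fun l => Submodule.smul_mem _ _ hg, fun y m hm => ?_⟩
      rw [TensorProduct.tmul_add, add_mul, mul_add, mul_A2_eq_zero hA g hq y hm, add_zero,
        TensorProduct.tmul_sum, Finset.sum_mul, Finset.mul_sum]
      simp only [zero_smul, Finset.sum_const_zero, zero_add]
      refine Finset.sum_congr rfl (fun k _ => ?_)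
      rw [TensorProduct.smul_tmul]

end gen

end

end Pool.Agent.Q29.SR
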