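import Pool.Agent.Q29.SR.Core

/-!
A Lie algebra (polynomials extended by a Heisenberg algebra) on which the determinant
polynomials do not vanish.
-/

namespace Pool.Agent.Q29.SR

noncomputable section

universe u

variable {F : Type u} [Field F]

section constr

variable {P V : Type u} [AddCommGroup P] [Module F P] [AddCommGroup V] [Module F V]

/-- The underlying space `P × V × F` of the example. -/
def ExAlg (_ρ : V →ₗ[F] P →ₗ[F] P) (_ω : V →ₗ[F] V →ₗ[F] F) : Type u := P × V × F

variable (ρ : V →ₗ[F] P →ₗ[F] P) (ω : V →ₗ[F] V →ₗ[F] F)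

instance : AddCommGroup (ExAlg ρ ω) := inferInstanceAs (AddCommGroup (P × V × F))

instance : Module F (ExAlg ρ ω) := inferInstanceAs (Module F (P × V × F))

instance : Mul (ExAlg ρ ω) :=
  ⟨fun x y => (ρ x.2.1 y.1 + x.2.2 • y.1 - ρ y.2.1 x.1 - y.2.2 • x.1, 0, ω x.2.1 y.2.1)⟩

theorem ex_mul_def (x y : ExAlg ρ ω) : x * y =
    (ρ x.2.1 y.1 + x.2.2 • y.1 - ρ y.2.1 x.1 - y.2.2 • x.1, 0, ω x.2.1 y.2.1) := rfl

theorem ex_ext {x y : ExAlg ρ ω} (h1 : x.1 = y.1) (h2 : x.2.1 = y.2.1) (h3 : x.2.2 = y.2.2) :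
    x = y := Prod.ext h1 (Prod.ext h2 h3)

@[simp] theorem ex_add_1 (x y : ExAlg ρ ω) : (x + y).1 = x.1 + y.1 := rfl
@[simp] theorem ex_add_2 (x y : ExAlg ρ ω) : (x + y).2.1 = x.2.1 + y.2.1 := rfl
@[simp] theorem ex_add_3 (x y : ExAlg ρ ω) : (x + y).2.2 = x.2.2 + y.2.2 := rfl
@[simp] theorem ex_smul_1 (c : F) (y : ExAlg ρ ω) : (c • y).1 = c • y.1 := rfl
@[simp] theorem ex_smul_2 (c : F) (y : ExAlg ρ ω) : (c • y).2.1 = c • y.2.1 := rfl
@[simp] theorem ex_smul_3 (c : F) (y : ExAlg ρ ω) : (c • y).2.2 = c * y.2.2 := rfl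
@[simp] theorem ex_zero_1 : (0 : ExAlg ρ ω).1 = 0 := rfl
@[simp] theorem ex_zero_2 : (0 : ExAlg ρ ω).2.1 = 0 := rfl
@[simp] theorem ex_zero_3 : (0 : ExAlg ρ ω).2.2 = 0 := rfl
@[simp] theorem ex_mul_1 (x y : ExAlg ρ ω) :
    (x * y).1 = ρ x.2.1 y.1 + x.2.2 • y.1 - ρ y.2.1 x.1 - y.2.2 • x.1 := rfl
@[simp] theorem ex_mul_2 (x y : ExAlg ρ ω) : (x * y).2.1 = 0 := rfl
@[simp] theorem ex_mul_3 (x y : ExAlg ρ ω) : (x * y).2.2 = ω x.2.1 y.2.1 := rfl

instance : NonUnitalNonAssocRing (ExAlg ρ ω) :=
  { (inferInstance : AddCommGroup (ExAlg ρ ω)), (inferInstance : Mul (ExAlg ρ ω)) with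
    left_distrib := fun x y z => by
      apply ex_ext <;> simp [add_smul]
      abel
    right_distrib := fun x y z => by
      apply ex_ext <;> simp [add_smul]
      abel
    zero_mul := fun x => by apply ex_ext <;> simp
    mul_zero := fun x => by apply ex_ext <;> simp }

instance : SMulCommClass F (ExAlg ρ ω) (ExAlg ρ ω) :=
  ⟨fun c x y => by
    change c • (x * y) = x * (c • y)
    apply ex_ext <;> simp [smul_sub, mul_smul, smul_comm x.2.2 c]⟩

instance : IsScalarTower F (ExAlg ρ ω) (ExAlg ρ ω) :=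
  ⟨fun c x y => by
    change (c • x) * y = c • (x * y)
    apply ex_ext <;> simp [smul_sub, mul_smul, smul_comm y.2.2 c]⟩

variable {ρ ω}

theorem ex_inVariety (hω : ∀ v w, ω v w + ω w v = 0)
    (hρ : ∀ v w m, ρ v (ρ w m) = ρ w (ρ v m) + ω v w • m) : InVariety (ExAlg ρ ω) (lieAN F) := by
  rw [inVariety_lieAN_iff]
  refine ⟨fun x y => ?_, fun x y z => ?_, fun a b c d e f => ?_⟩
  · apply ex_ext
    · simp only [ex_add_1, ex_mul_1, ex_zero_1]
      abel
    · simp
    · simpa using hω _ _
  · unfold jac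
    have hω' : ∀ v w, ω w v = -ω v w := fun v w => (neg_eq_of_add_eq_zero_right (hω v w)).symm
    apply ex_ext
    · simp only [ex_add_1, ex_mul_1, ex_mul_2, ex_mul_3, ex_zero_1, map_zero, LinearMap.zero_apply,
        map_add, map_sub, map_smul, zero_add, smul_sub, smul_add]
      rw [hρ x.2.1 y.2.1 z.1, hρ y.2.1 z.2.1 x.1, hρ z.2.1 x.2.1 y.1]
      rw [smul_comm x.2.2 y.2.2 z.1, smul_comm y.2.2 z.2.2 x.1, smul_comm z.2.2 x.2.2 y.1]
      abel
    · simp
    · simp
  · apply ex_ext <;> simp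

/-- The embedding of the abelian ideal `P`. -/
def inl (p : P) : ExAlg ρ ω := (p, 0, 0)

/-- The central element `c` of the Heisenberg algebra. -/
def cen (c : F) : ExAlg ρ ω := (0, 0, c)

/-- The elements of `V`. -/
def inv (v : V) : ExAlg ρ ω := (0, v, 0)

@[simp] theorem inl_1 (p : P) : (inl p : ExAlg ρ ω).1 = p := rfl
@[simp] theorem inl_2 (p : P) : (inl p : ExAlg ρ ω).2.1 = 0 := rfl
@[simp] theorem inl_3 (p : P) : (inl p : ExAlg ρ ω).2.2 = 0 := rfl
@[simp] theorem cen_1 (c : F) : (cen c : ExAlg ρ ω).1 = 0 := rfl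
@[simp] theorem cen_2 (c : F) : (cen c : ExAlg ρ ω).2.1 = 0 := rfl
@[simp] theorem cen_3 (c : F) : (cen c : ExAlg ρ ω).2.2 = c := rfl
@[simp] theorem inv_1 (v : V) : (inv v : ExAlg ρ ω).1 = 0 := rfl
@[simp] theorem inv_2 (v : V) : (inv v : ExAlg ρ ω).2.1 = v := rfl
@[simp] theorem inv_3 (v : V) : (inv v : ExAlg ρ ω).2.2 = 0 := rfl

theorem inv_mul_inv (v w : V) : (inv v : ExAlg ρ ω) * inv w = cen (ω v w) := by
  apply ex_ext <;> simp

theorem inl_mul_cen (p : P) (c : F) : (inl p : ExAlg ρ ω) * cen c = inl (-c • p) := by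
  apply ex_ext <;> simp

theorem inl_sum {ι : Type*} (s : Finset ι) (f : ι → P) :
    (inl (∑ i ∈ s, f i) : ExAlg ρ ω) = ∑ i ∈ s, inl (f i) := by
  classical
  induction s using Finset.induction with
  | empty => rfl
  | insert a s ha ih =>
    rw [Finset.sum_insert ha, Finset.sum_insert ha, ← ih]
    apply ex_ext <;> simp

theorem inl_zsmul (n : ℤ) (p : P) : n • (inl p : ExAlg ρ ω) = inl (n • p) := by
  let e : P →+ ExAlg ρ ω :=
    { toFun := inl
      map_zero' := rfl
      map_add' := fun p q => by apply ex_ext <;> simp }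
  exact (map_zsmul e n p).symm

/-- The determinant operator acts on `P` by the scalar `det(-ω(v_i, w_j))`. -/
theorem opD_inl {K : ℕ} (v w : Fin K → V) (p : P) :
    opD (fun i => (inv (v i) : ExAlg ρ ω)) (fun i => inv (w i)) (inl p) =
      inl ((Matrix.of fun i j => -ω (v i) (w j)).det • p) := by
  have key : ∀ (σ : Equiv.Perm (Fin K)) (l : List (Fin K)) (p : P),
      l.foldr (fun i m => m * ((inv (v (σ i)) : ExAlg ρ ω) * inv (w i))) (inl p) =
        inl ((l.map fun i => -ω (v (σ i)) (w i)).prod • p) := by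
    intro σ l p
    induction l with
    | nil => simp
    | cons i l ih =>
      rw [List.foldr_cons, ih, inv_mul_inv, inl_mul_cen, List.map_cons, List.prod_cons, mul_smul]
  unfold opD
  rw [Matrix.det_apply, Finset.sum_smul, inl_sum]
  refine Finset.sum_congr rfl (fun σ _ => ?_)
  rw [key, inl_zsmul, Units.smul_def, smul_assoc, Fin.prod_univ_def]
  rfl

end constr

section weyl

variable (F) (K : ℕ)

open MvPolynomial

/-- The space `F^K × F^K`. -/
abbrev VV : Type u := (Fin K → F) × (Fin K → F)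

/-- The symplectic form. -/
def omega : VV F K →ₗ[F] VV F K →ₗ[F] F :=
  LinearMap.mk₂ F (fun v w => ∑ i, v.1 i * w.2 i - ∑ i, v.2 i * w.1 i)
    (fun v v' w => by
      simp only [Prod.fst_add, Prod.snd_add, Pi.add_apply, add_mul, Finset.sum_add_distrib]; ring)
    (fun c v w => by
      simp only [Prod.smul_fst, Prod.smul_snd, Pi.smul_apply, smul_eq_mul, mul_assoc,
        ← Finset.mul_sum, mul_sub])
    (fun v w w' => by
      simp only [Prod.fst_add, Prod.snd_add, Pi.add_apply, mul_add, Finset.sum_add_distrib]; ring)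
    (fun c v w => by
      simp only [Prod.smul_fst, Prod.smul_snd, Pi.smul_apply, smul_eq_mul, mul_left_comm _ c,
        ← Finset.mul_sum, mul_sub])

variable {F K}

/-- The derivation `∑ pᵢ ∂ᵢ`. -/
def der (p : Fin K → F) : Derivation F (MvPolynomial (Fin K) F) (MvPolynomial (Fin K) F) :=
  mkDerivation F fun i => C (p i)

/-- The linear form `∑ qᵢ Xᵢ`. -/
def lin (q : Fin K → F) : MvPolynomial (Fin K) F := ∑ i, C (q i) * MvPolynomial.X i

theorem der_X (p : Fin K → F) (i : Fin K) : der p (MvPolynomial.X i) = C (p i) := mkDerivation_X _ _ _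

theorem der_lin (p q : Fin K → F) : der p (lin q) = C (∑ i, p i * q i) := by
  unfold lin
  rw [map_sum, map_sum]
  refine Finset.sum_congr rfl (fun i _ => ?_)
  rw [Derivation.leibniz, der_X]
  have : der p (C (q i)) = 0 := by
    rw [← algebraMap_eq]; exact Derivation.map_algebraMap _ _
  rw [this, smul_zero, add_zero, smul_eq_mul, ← map_mul, mul_comm]

theorem der_add (p p' : Fin K → F) : der (p + p') = der p + der p' := by
  apply derivation_ext
  intro i
  rw [Derivation.add_apply, der_X, der_X, der_X, Pi.add_apply, map_add]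

theorem der_smul (c : F) (p : Fin K → F) : der (c • p) = c • der p := by
  apply derivation_ext
  intro i
  rw [Derivation.smul_apply, der_X, der_X, Pi.smul_apply, smul_eq_mul, map_mul, smul_eq_C_mul]

theorem der_comm (p p' : Fin K → F) (m : MvPolynomial (Fin K) F) :
    der p (der p' m) = der p' (der p m) := by
  have h : ⁅der p, der p'⁆ = 0 := by
    apply derivation_ext
    intro i
    rw [Derivation.commutator_apply, der_X, der_X, Derivation.zero_apply]
    rw [← algebraMap_eq, Derivation.map_algebraMap, Derivation.map_algebraMap, sub_zero]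
  have h2 := congrArg (fun D : Derivation F (MvPolynomial (Fin K) F) (MvPolynomial (Fin K) F) =>
    D m) h
  simp only [Derivation.commutator_apply, Derivation.zero_apply] at h2
  exact sub_eq_zero.mp h2

variable (F K) in
/-- The action of `F^K × F^K` on polynomials by derivatives and multiplications. -/
def rho : VV F K →ₗ[F] MvPolynomial (Fin K) F →ₗ[F] MvPolynomial (Fin K) F :=
  LinearMap.mk₂ F (fun v m => der v.1 m + lin v.2 * m)
    (fun v v' m => by
      have h : lin (v.2 + v'.2) = lin v.2 + lin v'.2 := by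
        unfold lin
        rw [← Finset.sum_add_distrib]
        refine Finset.sum_congr rfl (fun i _ => ?_)
        rw [Pi.add_apply, map_add, add_mul]
      rw [Prod.fst_add, Prod.snd_add, der_add, Derivation.add_apply, h]; ring)
    (fun c v m => by
      have h : lin (c • v.2) = c • lin v.2 := by
        unfold lin
        rw [Finset.smul_sum]
        refine Finset.sum_congr rfl (fun i _ => ?_)
        rw [Pi.smul_apply, smul_eq_mul, map_mul, smul_eq_C_mul, mul_assoc]
      rw [Prod.smul_fst, Prod.smul_snd, der_smul, Derivation.smul_apply, h, smul_mul_assoc,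
        smul_add])
    (fun v m m' => by rw [map_add]; ring)
    (fun c v m => by rw [Derivation.map_smul, mul_smul_comm, smul_add])

theorem rho_apply (v : VV F K) (m : MvPolynomial (Fin K) F) :
    rho F K v m = der v.1 m + lin v.2 * m := rfl

theorem omega_apply (v w : VV F K) :
    omega F K v w = ∑ i, v.1 i * w.2 i - ∑ i, v.2 i * w.1 i := rfl

theorem rho_comm (v w : VV F K) (m : MvPolynomial (Fin K) F) :
    rho F K v (rho F K w m) = rho F K w (rho F K v m) + omega F K v w • m := by
  simp only [rho_apply, omega_apply, map_add, Derivation.leibniz, smul_eq_mul, der_lin]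
  rw [der_comm v.1 w.1 m, smul_eq_C_mul, map_sub]
  have h : ∑ i, v.2 i * w.1 i = ∑ i, w.1 i * v.2 i :=
    Finset.sum_congr rfl (fun i _ => mul_comm _ _)
  rw [h]
  ring

theorem omega_alt (v w : VV F K) : omega F K v w + omega F K w v = 0 := by
  rw [omega_apply, omega_apply]
  have h1 : ∑ i, v.1 i * w.2 i = ∑ i, w.2 i * v.1 i :=
    Finset.sum_congr rfl (fun i _ => mul_comm _ _)
  have h2 : ∑ i, v.2 i * w.1 i = ∑ i, w.1 i * v.2 i :=
    Finset.sum_congr rfl (fun i _ => mul_comm _ _)
  rw [h1, h2]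
  ring

variable (F K) in
/-- The Lie algebra `F[t₁,…,t_K] ⋊ (Heisenberg algebra)`. -/
abbrev LK : Type u := ExAlg (rho F K) (omega F K)

theorem LK_inVariety : InVariety (LK F K) (lieAN F) := ex_inVariety omega_alt rho_comm

/-- The basis vector `e_i` (zero for `i ≥ K`). -/
def bas (i : ℕ) : Fin K → F := fun k => if (k : ℕ) = i then 1 else 0

variable (F K) in
/-- The substitution. -/
def sub (n : ℕ) : LK F K :=
  if n = 0 then inl 1 else if n ≤ 2 then cen 1 else
    if n % 2 = 1 then inv (bas ((n - 3) / 2), 0) else inv (0, bas ((n - 4) / 2))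

theorem sub_odd (i : ℕ) : sub F K (3 + 2 * i) = inv (bas i, 0) := by
  unfold sub
  rw [if_neg (by omega), if_neg (by omega), if_pos (by omega)]
  congr 3
  omega

theorem sub_even (i : ℕ) : sub F K (4 + 2 * i) = inv (0, bas i) := by
  unfold sub
  rw [if_neg (by omega), if_neg (by omega), if_neg (by omega)]
  congr 3
  omega

theorem omega_bas (i j : Fin K) :
    omega F K (bas i, 0) (0, bas j) = if i = j then 1 else 0 := by
  rw [omega_apply]
  simp only [bas, Pi.zero_apply, Finset.sum_const_zero, sub_zero, mul_ite, mul_one,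
    mul_zero]
  rw [Finset.sum_eq_single j]
  · simp [Fin.ext_iff, eq_comm]
  · intro k _ hk
    rw [if_neg (fun h => hk (Fin.ext h))]
  · simp

theorem lift_detPoly_LK (k : ℕ) :
    FreeNonUnitalNonAssocAlgebra.lift F (sub F K) (detPoly F K k) ≠ 0 := by
  rw [lift_detPoly]
  have hx : (fun i : Fin K => sub F K (3 + 2 * (i : ℕ))) =
      fun i : Fin K => inv ((bas i, 0) : VV F K) := by
    funext i; exact sub_odd i
  have hy : (fun i : Fin K => sub F K (4 + 2 * (i : ℕ))) =
      fun i : Fin K => inv ((0, bas i) : VV F K) := by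
    funext i; exact sub_even i
  rw [hx, hy]
  have h0 : sub F K 0 * sub F K 1 * sub F K 2 = inl 1 := by
    have e0 : sub F K 0 = inl 1 := rfl
    have e1 : sub F K 1 = cen 1 := rfl
    have e2 : sub F K 2 = cen 1 := rfl
    rw [e0, e1, e2, inl_mul_cen, inl_mul_cen]
    simp
  rw [h0]
  have hdet : (Matrix.of fun i j : Fin K => -omega F K (bas i, 0) (0, bas j)).det =
      (-1 : F) ^ K := by
    have : (Matrix.of fun i j : Fin K => -omega F K (bas i, 0) (0, bas j)) =
        (-1 : F) • (1 : Matrix (Fin K) (Fin K) F) := by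
      ext i j
      rw [Matrix.of_apply, omega_bas, Matrix.smul_apply, Matrix.one_apply, smul_eq_mul,
        neg_one_mul]
    rw [this, Matrix.det_smul, Matrix.det_one, mul_one, Fintype.card_fin]
  have hit : ∀ (k : ℕ) (p : MvPolynomial (Fin K) F),
      (opD (fun i : Fin K => (inv ((bas i, 0) : VV F K) : LK F K))
        (fun i : Fin K => inv ((0, bas i) : VV F K)))^[k] (inl p) =
      inl (((-1 : F) ^ K) ^ k • p) := by
    intro k
    induction k with
    | zero => intro p; simp
    | succ k ih =>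
      intro p
      rw [Function.iterate_succ_apply, opD_inl, hdet, ih, smul_smul, ← pow_succ]
  rw [hit]
  intro h
  have h1 : ((-1 : F) ^ K) ^ k • (1 : MvPolynomial (Fin K) F) = 0 := congrArg Prod.fst h
  rcases smul_eq_zero.mp h1 with h2 | h2
  · exact (pow_ne_zero _ (pow_ne_zero _ (neg_ne_zero.mpr one_ne_zero))) h2
  · exact one_ne_zero h2

end weyl

end

end Pool.Agent.Q29.SR
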