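import Pool.Agent.Q29.SR.Int

/-!
The Grassmann algebra on countably many generators: supercommutativity and nonvanishing products.
-/

open TensorProduct

namespace Pool.Agent.Q29.SR

noncomputable section

universe u

variable {F : Type u} [Field F]

/-- A generator anticommutes: `ι v * x = (involute x) * ι v`. -/
theorem iota_mul (v : ℕ →₀ F) (x : Gr F) :
    ExteriorAlgebra.ι F v * x = CliffordAlgebra.involute x * ExteriorAlgebra.ι F v := by
  induction x using CliffordAlgebra.induction with
  | algebraMap r => rw [AlgHom.commutes]; exact (Algebra.commutes r _).symm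
  | ι w =>
    rw [CliffordAlgebra.involute_ι]
    have := ExteriorAlgebra.ι_add_mul_swap (R := F) v w
    rw [neg_mul]
    exact eq_neg_of_add_eq_zero_left this
  | mul a b ha hb => rw [← mul_assoc, ha, mul_assoc, hb, map_mul, mul_assoc]
  | add a b ha hb => rw [mul_add, ha, hb, map_add, add_mul]

theorem involute_involute' (x : Gr F) :
    CliffordAlgebra.involute (CliffordAlgebra.involute x) = x :=
  CliffordAlgebra.involute_involute x

/-- Even elements are central. -/
theorem even_comm {x : Gr F} (hx : x ∈ GrPart F 0) (g : Gr F) : x * g = g * x := by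
  induction x, hx using CliffordAlgebra.even_induction with
  | algebraMap r => exact Algebra.commutes r g
  | add x y hx hy ihx ihy => rw [add_mul, mul_add, ihx, ihy]
  | ι_mul_ι_mul m₁ m₂ x hx ih =>
    have h1 := iota_mul m₂ g
    have h2 := iota_mul m₁ (CliffordAlgebra.involute g)
    rw [involute_involute'] at h2
    change ExteriorAlgebra.ι F m₁ * ExteriorAlgebra.ι F m₂ * x * g = _
    rw [mul_assoc _ x g, ih, ← mul_assoc _ g x, mul_assoc _ _ g, h1, ← mul_assoc _ _
      (ExteriorAlgebra.ι F m₂), h2]
    change _ = g * (ExteriorAlgebra.ι F m₁ * ExteriorAlgebra.ι F m₂ * x)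
    simp only [mul_assoc]

/-- Odd elements: `x * g = (involute g) * x`. -/
theorem odd_comm {x : Gr F} (hx : x ∈ GrPart F 1) (g : Gr F) :
    x * g = CliffordAlgebra.involute g * x := by
  induction x, hx using CliffordAlgebra.odd_induction with
  | ι v => exact iota_mul v g
  | add x y hx hy ihx ihy => rw [add_mul, mul_add, ihx, ihy]
  | ι_mul_ι_mul m₁ m₂ x hx ih =>
    have h1 := iota_mul m₂ (CliffordAlgebra.involute g)
    have h2 := iota_mul m₁ g
    rw [involute_involute'] at h1
    change ExteriorAlgebra.ι F m₁ * ExteriorAlgebra.ι F m₂ * x * g = _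
    rw [mul_assoc _ x g, ih, ← mul_assoc _ _ x, mul_assoc _ _ (CliffordAlgebra.involute g), h1,
      ← mul_assoc _ _ (ExteriorAlgebra.ι F m₂), h2]
    change _ = CliffordAlgebra.involute g * (ExteriorAlgebra.ι F m₁ * ExteriorAlgebra.ι F m₂ * x)
    simp only [mul_assoc]

/-- `β g β = 0` for odd `β`. -/
theorem odd_mul_mul_odd [CharZero F] {b : Gr F} (hb : b ∈ GrPart F 1) (g : Gr F) :
    b * g * b = 0 := by
  have h1 : b * b = 0 := by
    have := odd_comm hb b
    rw [CliffordAlgebra.involute_eq_of_mem_odd hb] at this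
    have h2 : (2 : F) • (b * b) = 0 := by
      rw [two_smul]
      nth_rewrite 1 [this]
      rw [neg_mul, neg_add_cancel]
    exact (smul_eq_zero.mp h2).resolve_left two_ne_zero
  rw [odd_comm hb g, mul_assoc, h1, mul_zero]

/-- The shift of the generators. -/
def shiftV : (ℕ →₀ F) →ₗ[F] (ℕ →₀ F) := Finsupp.lmapDomain F F Nat.succ

/-- The shift of the Grassmann algebra. -/
def shiftG : Gr F →ₐ[F] Gr F := ExteriorAlgebra.map shiftV

theorem shiftG_injective : Function.Injective (shiftG (F := F)) := by
  apply ExteriorAlgebra.map_injective_field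
  rw [LinearMap.ker_eq_bot]
  exact Finsupp.mapDomain_injective Nat.succ_injective

theorem shiftG_iota (v : ℕ →₀ F) :
    shiftG (ExteriorAlgebra.ι F v) = ExteriorAlgebra.ι F (shiftV v) :=
  ExteriorAlgebra.map_apply_ι _ _

theorem shiftG_mem {i : ZMod 2} {x : Gr F} (hx : x ∈ GrPart F i) : shiftG x ∈ GrPart F i := by
  have key : ∀ m₁ m₂ (i : ZMod 2) (y : Gr F), shiftG y ∈ GrPart F i →
      shiftG (ExteriorAlgebra.ι F m₁ * ExteriorAlgebra.ι F m₂ * y) ∈ GrPart F i := by
    intro m₁ m₂ i y hy
    rw [map_mul, map_mul, shiftG_iota, shiftG_iota]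
    have h := SetLike.mul_mem_graded
      (CliffordAlgebra.ι_mul_ι_mem_evenOdd_zero (0 : QuadraticForm F (ℕ →₀ F))
        (shiftV m₁) (shiftV m₂)) hy
    rwa [zero_add] at h
  have h01 : i = 0 ∨ i = 1 := by
    fin_cases i
    · exact Or.inl rfl
    · exact Or.inr rfl
  rcases h01 with rfl | rfl
  · induction x, hx using CliffordAlgebra.even_induction with
    | algebraMap r =>
      rw [AlgHom.commutes, Algebra.algebraMap_eq_smul_one]
      exact Submodule.smul_mem _ _ (SetLike.one_mem_graded _)
    | add x y hx hy ihx ihy => rw [map_add]; exact Submodule.add_mem _ ihx ihy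
    | ι_mul_ι_mul m₁ m₂ x hx ih => exact key m₁ m₂ 0 x ih
  · induction x, hx using CliffordAlgebra.odd_induction with
    | ι v =>
      change shiftG (ExteriorAlgebra.ι F v) ∈ _
      rw [shiftG_iota]
      exact CliffordAlgebra.ι_mem_evenOdd_one _ _
    | add x y hx hy ihx ihy => rw [map_add]; exact Submodule.add_mem _ ihx ihy
    | ι_mul_ι_mul m₁ m₂ x hx ih => exact key m₁ m₂ 1 x ih

/-- The contraction with the functional `e₀*` kills the image of the shift. -/
theorem contract_shift (x : Gr F) :
    CliffordAlgebra.contractLeft (Q := (0 : QuadraticForm F (ℕ →₀ F)))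
      (Finsupp.lapply 0 : (ℕ →₀ F) →ₗ[F] F) (shiftG x) = 0 := by
  induction x using CliffordAlgebra.left_induction with
  | algebraMap r => rw [AlgHom.commutes]; exact CliffordAlgebra.contractLeft_algebraMap _ _ r
  | add x y ihx ihy => rw [map_add, map_add, ihx, ihy, add_zero]
  | ι_mul x v ih =>
    rw [map_mul]
    change CliffordAlgebra.contractLeft _ (shiftG (ExteriorAlgebra.ι F v) * shiftG x) = 0
    rw [shiftG_iota]
    change CliffordAlgebra.contractLeft _
      (CliffordAlgebra.ι (0 : QuadraticForm F (ℕ →₀ F)) (shiftV v) * shiftG x) = 0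
    rw [CliffordAlgebra.contractLeft_ι_mul, ih, mul_zero, sub_zero]
    have : (Finsupp.lapply 0 : (ℕ →₀ F) →ₗ[F] F) (shiftV v) = 0 := by
      change (Finsupp.mapDomain Nat.succ v) 0 = 0
      apply Finsupp.mapDomain_of_notMem_range
      rintro ⟨n, hn⟩
      exact Nat.succ_ne_zero n hn
    rw [this, zero_smul]

/-- Products of Grassmann elements of arbitrary parities can be nonzero. -/
theorem exists_prod_ne_zero : ∀ (n : ℕ) (p : Fin n → ZMod 2),
    ∃ g : Fin n → Gr F, (∀ i, g i ∈ GrPart F (p i)) ∧ (List.ofFn g).prod ≠ 0 := by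
  intro n
  induction n with
  | zero =>
    intro p
    refine ⟨fun i => i.elim0, fun i => i.elim0, ?_⟩
    simp
  | succ n ih =>
    intro p
    obtain ⟨g, hg, hne⟩ := ih (fun i => p i.succ)
    have hS : (List.ofFn fun i => shiftG (g i)).prod = shiftG (List.ofFn g).prod := by
      rw [map_list_prod, List.map_ofFn]
      rfl
    have hne' : shiftG (List.ofFn g).prod ≠ 0 := by
      intro h
      exact hne (shiftG_injective (by rw [h, map_zero]))
    have h01 : p 0 = 0 ∨ p 0 = 1 := by
      generalize p 0 = i
      fin_cases i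
      · exact Or.inl rfl
      · exact Or.inr rfl
    rcases h01 with h0 | h0
    · refine ⟨Fin.cons 1 (fun i => shiftG (g i)), ?_, ?_⟩
      · intro i
        refine Fin.cases ?_ (fun j => ?_) i
        · rw [Fin.cons_zero, h0]; exact SetLike.one_mem_graded _
        · rw [Fin.cons_succ]; exact shiftG_mem (hg j)
      · rw [List.ofFn_succ, List.prod_cons]
        simp only [Fin.cons_zero, Fin.cons_succ, one_mul]
        rw [hS]; exact hne'
    · refine ⟨Fin.cons (ExteriorAlgebra.ι F (Finsupp.single 0 1)) (fun i => shiftG (g i)), ?_, ?_⟩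
      · intro i
        refine Fin.cases ?_ (fun j => ?_) i
        · rw [Fin.cons_zero, h0]; exact CliffordAlgebra.ι_mem_evenOdd_one _ _
        · rw [Fin.cons_succ]; exact shiftG_mem (hg j)
      · rw [List.ofFn_succ, List.prod_cons]
        simp only [Fin.cons_zero, Fin.cons_succ]
        rw [hS]
        intro h
        have h2 := CliffordAlgebra.contractLeft_ι_mul (Q := (0 : QuadraticForm F (ℕ →₀ F)))
          (d := (Finsupp.lapply 0 : (ℕ →₀ F) →ₗ[F] F)) (Finsupp.single 0 1)
          (shiftG (List.ofFn g).prod)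
        rw [contract_shift, mul_zero, sub_zero] at h2
        have h3 : CliffordAlgebra.ι (0 : QuadraticForm F (ℕ →₀ F)) (Finsupp.single 0 1) *
          shiftG (List.ofFn g).prod = 0 := h
        rw [h3, map_zero] at h2
        have h4 : (Finsupp.lapply 0 : (ℕ →₀ F) →ₗ[F] F) (Finsupp.single 0 1) = 1 := by
          simp
        rw [h4, one_smul] at h2
        exact hne' h2.symm

end

end Pool.Agent.Q29.SR
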