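import Pool.Agent.Q29.SR.Defs

/-!
Unbundled versions of the definitions, used in the proofs.
-/

open TensorProduct

namespace Pool.Agent.Q29.SR

noncomputable section

universe u

section identities

variable {F : Type u} [Field F]
variable (B : Type u) [NonUnitalNonAssocRing B] [Module F B] [SMulCommClass F B B]
  [IsScalarTower F B B]

/-- `f` is an identity of the algebra `B`. -/
def IsIdentity (f : NAPoly F) : Prop :=
  ∀ v : ℕ → B, FreeNonUnitalNonAssocAlgebra.lift F v f = 0

/-- The algebra `B` belongs to the variety defined by the set `S` of identities. -/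
def InVariety (S : Set (NAPoly F)) : Prop := ∀ f ∈ S, IsIdentity B f

end identities

section super

variable {F : Type u} [Field F]
variable {A : Type u} [NonUnitalNonAssocRing A] [Module F A] [SMulCommClass F A A]
  [IsScalarTower F A A]

/-- `A = 𝒜 0 ⊕ 𝒜 1` is a superalgebra. -/
structure IsSuperalgebra (𝒜 : ZMod 2 → Submodule F A) : Prop where
  isCompl : IsCompl (𝒜 0) (𝒜 1)
  mul_mem : ∀ {i j : ZMod 2} {a b : A}, a ∈ 𝒜 i → b ∈ 𝒜 j → a * b ∈ 𝒜 (i + j)

variable (F) in
/-- The Grassmann algebra (with unit) on countably many anticommuting generators. -/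
abbrev Gr : Type u := ExteriorAlgebra F (ℕ →₀ F)

variable (F) in
/-- The even part `Gr₀` and the odd part `Gr₁` of the Grassmann algebra. -/
abbrev GrPart (i : ZMod 2) : Submodule F (Gr F) :=
  CliffordAlgebra.evenOdd (0 : QuadraticForm F (ℕ →₀ F)) i

/-- The subspace `Gr₀ ⊗ 𝒜 0 + Gr₁ ⊗ 𝒜 1` of `Gr ⊗ A`. -/
def envSpace (𝒜 : ZMod 2 → Submodule F A) : Submodule F (Gr F ⊗[F] A) :=
  Submodule.span F {t | ∃ i g a, g ∈ GrPart F i ∧ a ∈ 𝒜 i ∧ t = g ⊗ₜ[F] a}

theorem envSpace_mul {𝒜 : ZMod 2 → Submodule F A} (h : IsSuperalgebra 𝒜)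
    {x y : Gr F ⊗[F] A} (hx : x ∈ envSpace 𝒜) (hy : y ∈ envSpace 𝒜) : x * y ∈ envSpace 𝒜 := by
  change x ∈ Submodule.span F _ at hx
  change y ∈ Submodule.span F _ at hy
  change x * y ∈ Submodule.span F _
  induction hx using Submodule.span_induction with
  | zero => rw [zero_mul]; exact Submodule.zero_mem _
  | add x x' _ _ hx hx' => rw [add_mul]; exact Submodule.add_mem _ hx hx'
  | smul c x _ hx => rw [smul_mul_assoc]; exact Submodule.smul_mem _ c hx
  | mem x hx =>
    obtain ⟨i, g, a, hg, ha, rfl⟩ := hx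
    induction hy using Submodule.span_induction with
    | zero => rw [mul_zero]; exact Submodule.zero_mem _
    | add y y' _ _ hy hy' => rw [mul_add]; exact Submodule.add_mem _ hy hy'
    | smul c y _ hy => rw [mul_smul_comm]; exact Submodule.smul_mem _ c hy
    | mem y hy =>
      obtain ⟨j, g', a', hg', ha', rfl⟩ := hy
      rw [Algebra.TensorProduct.tmul_mul_tmul]
      exact Submodule.subset_span ⟨i + j, g * g', a * a',
        SetLike.mul_mem_graded (A := CliffordAlgebra.evenOdd (0 : QuadraticForm F (ℕ →₀ F)))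
          hg hg', h.mul_mem ha ha', rfl⟩

/-- The Grassmann envelope `Gr₀ ⊗ 𝒜 0 + Gr₁ ⊗ 𝒜 1`, a subalgebra of `Gr ⊗ A`. -/
def envelope (𝒜 : ZMod 2 → Submodule F A) (h : IsSuperalgebra 𝒜) :
    NonUnitalSubalgebra F (Gr F ⊗[F] A) :=
  (envSpace 𝒜).toNonUnitalSubalgebra fun _ _ hx hy => envSpace_mul h hx hy

end super

end

end Pool.Agent.Q29.SR
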