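import Pool.Agent.Q29.SR.Env

/-!
Determinant polynomials are identities of the Grassmann envelopes of finitely generated
superalgebras in the variety of Lie algebras with `L³L³ = 0`.
-/

open TensorProduct

namespace Pool.Agent.Q29.SR

noncomputable section

universe u

variable {F : Type u} [Field F]
variable {A : Type u} [NonUnitalNonAssocRing A] [Module F A] [SMulCommClass F A A]
  [IsScalarTower F A A]
variable {𝒜 : ZMod 2 → Submodule F A}

/-- The part of `Gr ⊗ A³` inside the Grassmann envelope. -/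
def Md (𝒜 : ZMod 2 → Submodule F A) (h : IsSuperalgebra 𝒜) : Submodule F (Gr F ⊗[F] A) :=
  (envelope 𝒜 h).toSubmodule ⊓ P3 F A

/-- The operators used. -/
def Sop (𝒜 : ZMod 2 → Submodule F A) (h : IsSuperalgebra 𝒜) : Set (Module.End F (Md 𝒜 h)) :=
  {f | (∃ x ∈ envelope 𝒜 h, ∃ y ∈ envelope 𝒜 h, ∀ m : Md 𝒜 h,
      ((f m : Md 𝒜 h) : Gr F ⊗[F] A) = (m : Gr F ⊗[F] A) * (x * y)) ∨
    ∃ α ∈ GrPart F 0, ∀ m : Md 𝒜 h,
      ((f m : Md 𝒜 h) : Gr F ⊗[F] A) = α • (m : Gr F ⊗[F] A)}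

theorem smul_mem_envelope (h : IsSuperalgebra 𝒜) {α : Gr F} (hα : α ∈ GrPart F 0)
    {x : Gr F ⊗[F] A} (hx : x ∈ envelope 𝒜 h) : α • x ∈ envelope 𝒜 h := by
  change x ∈ Submodule.span F _ at hx
  change α • x ∈ Submodule.span F _
  induction hx using Submodule.span_induction with
  | zero => rw [smul_zero]; exact Submodule.zero_mem _
  | add x x' _ _ hx hx' => rw [smul_add]; exact Submodule.add_mem _ hx hx'
  | smul c x _ hx => rw [smul_comm]; exact Submodule.smul_mem _ c hx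
  | mem x hx =>
    obtain ⟨i, g, a, hg, ha, rfl⟩ := hx
    rw [TensorProduct.smul_tmul']
    refine Submodule.subset_span ⟨i, α • g, a, ?_, ha, rfl⟩
    have := SetLike.mul_mem_graded
      (A := CliffordAlgebra.evenOdd (0 : QuadraticForm F (ℕ →₀ F))) hα hg
    rwa [zero_add] at this

omit [SMulCommClass F A A] [IsScalarTower F A A] in
theorem smul_mem_P3 (α : Gr F) {x : Gr F ⊗[F] A} (hx : x ∈ P3 F A) : α • x ∈ P3 F A := by
  unfold P3 at hx
  induction hx using Submodule.span_induction with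
  | zero => rw [smul_zero]; exact Submodule.zero_mem _
  | add x x' _ _ hx hx' => rw [smul_add]; exact Submodule.add_mem _ hx hx'
  | smul c x _ hx => rw [smul_comm]; exact Submodule.smul_mem _ c hx
  | mem x hx =>
    obtain ⟨g, a, b, c, rfl⟩ := hx
    rw [TensorProduct.smul_tmul']
    exact Submodule.subset_span ⟨_, _, _, _, rfl⟩

/-- `m ↦ m·(x·y)`. -/
def Zop (h : IsSuperalgebra 𝒜) (x y : Gr F ⊗[F] A) (hx : x ∈ envelope 𝒜 h)
    (hy : y ∈ envelope 𝒜 h) : Module.End F (Md 𝒜 h) where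
  toFun m := ⟨m * (x * y), (envelope 𝒜 h).mul_mem m.2.1 ((envelope 𝒜 h).mul_mem hx hy),
    P3_mul m.2.2 _⟩
  map_add' m m' := Subtype.ext (by
    change ((m : Gr F ⊗[F] A) + m') * (x * y) = _
    rw [add_mul]; rfl)
  map_smul' c m := Subtype.ext (by
    change (c • (m : Gr F ⊗[F] A)) * (x * y) = _
    rw [smul_mul_assoc]; rfl)

/-- Multiplication by an even element of the Grassmann algebra. -/
def Mop (h : IsSuperalgebra 𝒜) (α : Gr F) (hα : α ∈ GrPart F 0) : Module.End F (Md 𝒜 h) where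
  toFun m := ⟨α • (m : Gr F ⊗[F] A), smul_mem_envelope h hα m.2.1, smul_mem_P3 α m.2.2⟩
  map_add' m m' := Subtype.ext (by
    change α • ((m : Gr F ⊗[F] A) + m') = _
    rw [smul_add]; rfl)
  map_smul' c m := Subtype.ext (by
    change α • (c • (m : Gr F ⊗[F] A)) = _
    rw [smul_comm]; rfl)

theorem Sop_comm (h : IsSuperalgebra 𝒜)
    (hA : ∀ a b c d e f : A, (a * b * c) * (d * e * f) = 0)
    (hac : ∀ x y : envelope 𝒜 h, x * y + y * x = 0)
    (hjac : ∀ x y z : envelope 𝒜 h, jac x y z = 0) :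
    ∀ f ∈ Sop 𝒜 h, ∀ g ∈ Sop 𝒜 h, f * g = g * f := by
  have hZZ : ∀ x ∈ envelope 𝒜 h, ∀ y ∈ envelope 𝒜 h, ∀ x' ∈ envelope 𝒜 h,
      ∀ y' ∈ envelope 𝒜 h, ∀ m : Md 𝒜 h,
      ((m : Gr F ⊗[F] A) * (x * y)) * (x' * y') = ((m : Gr F ⊗[F] A) * (x' * y')) * (x * y) := by
    intro x hx y hy x' hx' y' hy' m
    have hz : x * y ∈ envelope 𝒜 h := (envelope 𝒜 h).mul_mem hx hy
    have hz' : x' * y' ∈ envelope 𝒜 h := (envelope 𝒜 h).mul_mem hx' hy'
    have hp : (m : Gr F ⊗[F] A) ∈ envelope 𝒜 h := m.2.1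
    have h1 : (m : Gr F ⊗[F] A) * (x * y) * (x' * y') + (x * y) * (x' * y') * m +
        (x' * y') * m * (x * y) = 0 :=
      congrArg Subtype.val (hjac ⟨_, hp⟩ ⟨_, hz⟩ ⟨_, hz'⟩)
    have h2 : (x' * y') * (m : Gr F ⊗[F] A) + m * (x' * y') = 0 :=
      congrArg Subtype.val (hac ⟨_, hz'⟩ ⟨_, hp⟩)
    have h3 : (x * y) * (x' * y') * (m : Gr F ⊗[F] A) + m * ((x * y) * (x' * y')) = 0 :=
      congrArg Subtype.val (hac ⟨_, (envelope 𝒜 h).mul_mem hz hz'⟩ ⟨_, hp⟩)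
    have h4 : (m : Gr F ⊗[F] A) * ((x * y) * (x' * y')) = 0 :=
      P3_mul_P3 hA m.2.2 (mul_mul_mem_P3 x y (x' * y'))
    rw [h4, add_zero] at h3
    rw [h3, add_zero] at h1
    have h5 : (m : Gr F ⊗[F] A) * (x' * y') * (x * y) + (x' * y') * m * (x * y) = 0 := by
      rw [add_comm, ← add_mul, h2, zero_mul]
    exact add_right_cancel (h1.trans h5.symm)
  rintro f (⟨x, hx, y, hy, hf⟩ | ⟨α, hα, hf⟩) g (⟨x', hx', y', hy', hg⟩ | ⟨α', hα', hg⟩)
  · ext1 m
    apply Subtype.ext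
    rw [Module.End.mul_apply, Module.End.mul_apply, hf, hg, hg, hf]
    exact hZZ x' hx' y' hy' x hx y hy m
  · ext1 m
    apply Subtype.ext
    rw [Module.End.mul_apply, Module.End.mul_apply, hf, hg, hg, hf, even_smul_mul]
  · ext1 m
    apply Subtype.ext
    rw [Module.End.mul_apply, Module.End.mul_apply, hf, hg, hg, hf, even_smul_mul]
  · ext1 m
    apply Subtype.ext
    rw [Module.End.mul_apply, Module.End.mul_apply, hf, hg, hg, hf, smul_smul, smul_smul,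
      even_comm hα]

section core

variable {h : IsSuperalgebra 𝒜} {E : Type u} [CommRing E]

theorem det_apply_eq (φ : E →+* Module.End F (Md 𝒜 h)) {K : ℕ}
    (x y : Fin K → Gr F ⊗[F] A) (M : Matrix (Fin K) (Fin K) E)
    (hM : ∀ i j, ∀ m : Md 𝒜 h, ((φ (M i j) m : Md 𝒜 h) : Gr F ⊗[F] A) = m * (x i * y j))
    (m : Md 𝒜 h) : ((φ M.det m : Md 𝒜 h) : Gr F ⊗[F] A) = opD x y m := by
  have key : ∀ (σ : Equiv.Perm (Fin K)) (l : List (Fin K)) (m : Md 𝒜 h),
      ((((l.map fun i => φ (M (σ i) i)).prod m : Md 𝒜 h)) : Gr F ⊗[F] A) =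
        l.foldr (fun i m => m * (x (σ i) * y i)) (m : Gr F ⊗[F] A) := by
    intro σ l
    induction l with
    | nil => intro m; rfl
    | cons i l ih =>
      intro m
      rw [List.map_cons, List.prod_cons, Module.End.mul_apply, hM, ih, List.foldr_cons]
  let ψ : E →+ Gr F ⊗[F] A :=
    { toFun := fun e => ((φ e m : Md 𝒜 h) : Gr F ⊗[F] A)
      map_zero' := by rw [map_zero]; rfl
      map_add' := fun e e' => by rw [map_add]; rfl }
  unfold opD
  change ψ M.det = _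
  rw [Matrix.det_apply, map_sum]
  refine Finset.sum_congr rfl (fun σ _ => ?_)
  rw [Units.smul_def, map_zsmul, Fin.prod_univ_def, ← key σ (List.finRange K) m]
  change _ • ((φ _ m : Md 𝒜 h) : Gr F ⊗[F] A) = _
  rw [map_list_prod, List.map_map]
  rfl

end core

open scoped IsMulCommutative in
/-- The relevant operators live in a commutative ring. -/
theorem exists_ring (h : IsSuperalgebra 𝒜)
    (hcomm : ∀ f ∈ Sop 𝒜 h, ∀ g ∈ Sop 𝒜 h, f * g = g * f) :
    ∃ (E : Type u) (_ : CommRing E) (φ : E →+* Module.End F (Md 𝒜 h)), Function.Injective φ ∧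
      (∀ (x y : Gr F ⊗[F] A) (hx : x ∈ envelope 𝒜 h) (hy : y ∈ envelope 𝒜 h),
        ∃ e, φ e = Zop h x y hx hy) ∧
      (∀ (α : Gr F) (hα : α ∈ GrPart F 0), ∃ e, φ e = Mop h α hα) := by
  have hmc := Algebra.isMulCommutative_adjoin F hcomm
  let R : CommRing (Algebra.adjoin F (Sop 𝒜 h)) :=
    { Algebra.semiringToRing F (A := Algebra.adjoin F (Sop 𝒜 h)) with
      mul_comm := fun a b => hmc.is_comm.comm a b }
  refine ⟨Algebra.adjoin F (Sop 𝒜 h), R, (Algebra.adjoin F (Sop 𝒜 h)).val.toRingHom,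
    Subtype.val_injective, fun x y hx hy => ?_, fun α hα => ?_⟩
  · exact ⟨⟨Zop h x y hx hy, Algebra.subset_adjoin (Or.inl ⟨x, hx, y, hy, fun m => rfl⟩)⟩, rfl⟩
  · exact ⟨⟨Mop h α hα, Algebra.subset_adjoin (Or.inr ⟨α, hα, fun m => rfl⟩)⟩, rfl⟩

section core2

variable {h : IsSuperalgebra 𝒜} {E : Type u} [CommRing E]

theorem core_iterate [CharZero F] (φ : E →+* Module.End F (Md 𝒜 h)) (hφ : Function.Injective φ)
    {r s : ℕ} (x y : Fin (r + 1) → Gr F ⊗[F] A) {a : Fin r → A} {b : Fin s → A}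
    (α : Fin (r + 1) → Fin r → Gr F) (β : Fin (r + 1) → Fin s → Gr F)
    (hβ : ∀ i l, β i l ∈ GrPart F 1)
    (hexp : ∀ (i : Fin (r + 1)) (y m : Gr F ⊗[F] A), m ∈ P3 F A →
        m * (x i * y) = ∑ k, α i k • (m * (((1 : Gr F) ⊗ₜ[F] a k) * y)) +
          ∑ l, m * ((β i l ⊗ₜ[F] b l) * y))
    (M : Matrix (Fin (r + 1)) (Fin (r + 1)) E) (U : Fin (r + 1) → Fin r → E)
    (V : Fin r → Fin (r + 1) → E) (N : Fin (r + 1) → Fin (r + 1) → Fin s → E)
    (hM : ∀ i j, ∀ m : Md 𝒜 h, ((φ (M i j) m : Md 𝒜 h) : Gr F ⊗[F] A) = m * (x i * y j))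
    (hU : ∀ i k, ∀ m : Md 𝒜 h, ((φ (U i k) m : Md 𝒜 h) : Gr F ⊗[F] A) =
      α i k • (m : Gr F ⊗[F] A))
    (hV : ∀ k j, ∀ m : Md 𝒜 h, ((φ (V k j) m : Md 𝒜 h) : Gr F ⊗[F] A) =
      m * (((1 : Gr F) ⊗ₜ[F] a k) * y j))
    (hN : ∀ i j l, ∀ m : Md 𝒜 h, ((φ (N i j l) m : Md 𝒜 h) : Gr F ⊗[F] A) =
      m * ((β i l ⊗ₜ[F] b l) * y j))
    (m : Md 𝒜 h) :
    (opD x y)^[(r + 1) * (r + 1) * s + 1] (m : Gr F ⊗[F] A) = 0 := by
  have hnil : M.det ^ ((r + 1) * (r + 1) * s + 1) = 0 := by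
    refine det_nilp M U V N ?_ ?_
    · intro i j
      apply hφ
      rw [map_add, map_sum, map_sum]
      refine LinearMap.ext (fun m => Subtype.ext ?_)
      rw [LinearMap.add_apply, LinearMap.sum_apply, LinearMap.sum_apply, Submodule.coe_add,
        Submodule.coe_sum, Submodule.coe_sum, hM, hexp i (y j) m m.2.2]
      congr 1
      · refine Finset.sum_congr rfl (fun k _ => ?_)
        rw [map_mul, Module.End.mul_apply, hU, hV]
      · refine Finset.sum_congr rfl (fun l _ => ?_)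
        rw [hN]
    · intro i j l
      apply hφ
      rw [map_mul, map_zero]
      refine LinearMap.ext (fun m => Subtype.ext ?_)
      rw [Module.End.mul_apply, hN, hN]
      exact odd_sq (hβ i l) (b l) m (y j) (y j)
  have hiter : ∀ (k : ℕ) (m : Md 𝒜 h),
      (((φ (M.det ^ k)) m : Md 𝒜 h) : Gr F ⊗[F] A) = (opD x y)^[k] m := by
    intro k
    induction k with
    | zero => intro m; rw [pow_zero, map_one]; rfl
    | succ k ih =>
      intro m
      rw [pow_succ, map_mul, Module.End.mul_apply, ih, det_apply_eq φ x y M hM,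
        Function.iterate_succ_apply]
  rw [← hiter, hnil, map_zero]
  rfl

end core2

/-- Determinant polynomials are identities of Grassmann envelopes. -/
theorem envelope_detPoly [CharZero F] (h : IsSuperalgebra 𝒜) {r s : ℕ} {a : Fin r → A}
    {b : Fin s → A} (ha : ∀ i, a i ∈ 𝒜 0) (hb : ∀ i, b i ∈ 𝒜 1)
    (hgen : NonUnitalAlgebra.adjoin F (Set.range a ∪ Set.range b) = ⊤)
    (hV : InVariety (envelope 𝒜 h) (lieAN F)) :
    IsIdentity (envelope 𝒜 h) (detPoly F (r + 1) ((r + 1) * (r + 1) * s + 1)) := by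
  obtain ⟨hac, hjac, hLL⟩ := inVariety_lieAN_iff.mp hV
  have hA := A3A3 h hLL
  obtain ⟨E, _, φ, hφ, hZ, hMo⟩ := exists_ring h (Sop_comm h hA hac hjac)
  intro v
  refine (lift_detPoly v _ _).trans ?_
  have hxm : ∀ i : Fin (r + 1), (v (3 + 2 * i) : Gr F ⊗[F] A) ∈ envelope 𝒜 h :=
    fun i => (v (3 + 2 * i)).2
  have hym : ∀ i : Fin (r + 1), (v (4 + 2 * i) : Gr F ⊗[F] A) ∈ envelope 𝒜 h :=
    fun i => (v (4 + 2 * i)).2
  choose α β hα hβ hexp using fun i => expand h ha hb hgen hA (hxm i)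
  have h1a : ∀ k, (1 : Gr F) ⊗ₜ[F] a k ∈ envelope 𝒜 h := fun k =>
    tmul_mem_envelope h (SetLike.one_mem_graded _) (ha k)
  have hβb : ∀ i l, β i l ⊗ₜ[F] b l ∈ envelope 𝒜 h := fun i l =>
    tmul_mem_envelope h (hβ i l) (hb l)
  choose M hM using fun i j => hZ _ _ (hxm i) (hym j)
  choose U hU using fun i k => hMo _ (hα i k)
  choose V hV' using fun k j => hZ _ _ (h1a k) (hym j)
  choose N hN using fun i j l => hZ _ _ (hβb i l) (hym j)
  have hmem : ((v 0 * v 1 * v 2 : envelope 𝒜 h) : Gr F ⊗[F] A) ∈ Md 𝒜 h :=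
    ⟨(v 0 * v 1 * v 2).2, mul_mul_mem_P3 _ _ _⟩
  have key := core_iterate φ hφ (fun i => (v (3 + 2 * i) : Gr F ⊗[F] A))
    (fun i => (v (4 + 2 * i) : Gr F ⊗[F] A)) α β hβ hexp M U V N
    (fun i j m => by rw [hM i j]; rfl) (fun i k m => by rw [hU i k]; rfl)
    (fun k j m => by rw [hV' k j]; rfl) (fun i j l m => by rw [hN i j l]; rfl) ⟨_, hmem⟩
  have hval : ∀ (k : ℕ) (m : envelope 𝒜 h),
      (((opD (fun i : Fin (r + 1) => v (3 + 2 * i)) (fun i : Fin (r + 1) => v (4 + 2 * i)))^[k] m :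
        envelope 𝒜 h) : Gr F ⊗[F] A) =
      (opD (fun i : Fin (r + 1) => (v (3 + 2 * i) : Gr F ⊗[F] A))
        (fun i : Fin (r + 1) => (v (4 + 2 * i) : Gr F ⊗[F] A)))^[k] (m : Gr F ⊗[F] A) := by
    intro k
    induction k with
    | zero => intro m; rfl
    | succ k ih =>
      intro m
      rw [Function.iterate_succ_apply, Function.iterate_succ_apply, ih]
      congr 1
      exact map_opD (NonUnitalSubalgebraClass.subtype (envelope 𝒜 h)) _ _ m
  apply Subtype.ext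
  rw [hval]
  exact key

end

end Pool.Agent.Q29.SR
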